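import Mathlib

/-! Walking down a binary tree of nested intervals while getting away from boundedly many points
per level. -/

open Finset

namespace Pool.Agent.P.MP_bdd694_an

/-- weighted number of points that are still close at level `M` -/
noncomputable def alive (h : ℕ → ℝ) (Z : ℕ → ℝ → Finset ℝ) (x : ℕ → ℝ) (M : ℕ) : ℝ :=
  ∑ m ∈ range (M + 1), (3 / 2 : ℝ) ^ (M - m) * ((Z m (x m)).filter fun ζ => |ζ - x M| < 3 * h M).card

lemma alive_congr (h : ℕ → ℝ) (Z : ℕ → ℝ → Finset ℝ) (x y : ℕ → ℝ) (M : ℕ)
    (e : ∀ m ≤ M, x m = y m) : alive h Z x M = alive h Z y M := by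
  unfold alive
  refine sum_congr rfl fun m hm => ?_
  rw [e m (by simpa [Nat.lt_succ_iff] using hm), e M le_rfl]

theorem avoid (h : ℕ → ℝ) (hpos : ∀ m, 0 < h m) (hdec : ∀ m, 2 * h (m + 1) ≤ h m)
    (Good : ℕ → ℝ → Prop) (M : ℕ)
    (step : ∀ m < M, ∀ x, Good m x → ∃ y₁ y₂, |y₁ - x| ≤ h m ∧ |y₂ - x| ≤ h m ∧
      6 * h (m + 1) ≤ |y₁ - y₂| ∧ Good (m + 1) y₁ ∧ Good (m + 1) y₂)
    (Z : ℕ → ℝ → Finset ℝ) (N : ℕ) (hZ : ∀ m x, (Z m x).card ≤ N) (R : ℕ)
    (hR : (4 * N : ℝ) < (3 / 2) ^ R) (x₀ : ℝ) (h0 : Good 0 x₀) :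
    ∃ x : ℕ → ℝ, x 0 = x₀ ∧ (∀ m ≤ M, Good m (x m) ∧ |x M - x m| ≤ 2 * h m) ∧
      ∀ m, m + R ≤ M → ∀ ζ ∈ Z m (x m), h (m + R) ≤ |x M - ζ| := by
  have hN : (0 : ℝ) ≤ N := Nat.cast_nonneg N
  have main : ∀ K ≤ M, ∃ x : ℕ → ℝ, x 0 = x₀ ∧ (∀ m ≤ K, Good m (x m)) ∧
      (∀ m < K, |x (m + 1) - x m| ≤ h m) ∧ ∀ m ≤ K, alive h Z x m ≤ 4 * N := by
    intro K
    induction K with
    | zero =>
      intro _
      refine ⟨fun _ => x₀, rfl, fun m hm => ?_, by simp, fun m hm => ?_⟩
      · obtain rfl : m = 0 := by omega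
        exact h0
      · obtain rfl : m = 0 := by omega
        have : (((Z 0 x₀).filter fun ζ => |ζ - x₀| < 3 * h 0).card : ℝ) ≤ N := by
          exact_mod_cast (card_filter_le _ _).trans (hZ 0 x₀)
        simp only [alive, zero_add, range_one, sum_singleton, tsub_self, pow_zero, one_mul]
        linarith
    | succ K ih =>
      intro hK
      obtain ⟨x, hx0, hg, hd, ha⟩ := ih (by omega)
      obtain ⟨y₁, y₂, h1, h2, h12, g1, g2⟩ := step K (by omega) (x K) (hg K le_rfl)
      let W : ℝ → ℝ := fun y => ∑ m ∈ range (K + 1),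
        (3 / 2 : ℝ) ^ (K - m) * ((Z m (x m)).filter fun ζ => |ζ - y| < 3 * h (K + 1)).card
      have hW : W y₁ + W y₂ ≤ alive h Z x K := by
        simp only [W, alive]
        rw [← sum_add_distrib]
        refine sum_le_sum fun m _ => ?_
        rw [← mul_add]
        refine mul_le_mul_of_nonneg_left ?_ (by positivity)
        norm_cast
        rw [← card_union_of_disjoint]
        · refine card_le_card fun ζ hζ => ?_
          have := hdec K
          have := hpos (K + 1)
          rcases mem_union.1 hζ with k | k <;> rw [mem_filter] at k ⊢ <;> refine ⟨k.1, ?_⟩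
          · have := abs_sub_le ζ y₁ (x K); linarith [k.2]
          · have := abs_sub_le ζ y₂ (x K); linarith [k.2]
        · rw [disjoint_filter]
          intro ζ _ k1 k2
          have := abs_sub_le y₁ ζ y₂
          rw [abs_sub_comm y₁ ζ] at this
          linarith
      have : ∃ y, |y - x K| ≤ h K ∧ Good (K + 1) y ∧ W y ≤ 2 * N := by
        have := ha K le_rfl
        by_cases c : W y₁ ≤ 2 * N
        · exact ⟨y₁, h1, g1, c⟩
        · exact ⟨y₂, h2, g2, by linarith⟩
      obtain ⟨y, hy, gy, wy⟩ := this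
      have e : ∀ m ≤ K, Function.update x (K + 1) y m = x m := fun m hm =>
        Function.update_of_ne (by omega) _ _
      refine ⟨Function.update x (K + 1) y, by rw [e 0 (by omega), hx0], fun m hm => ?_,
        fun m hm => ?_, fun m hm => ?_⟩
      · rcases Nat.lt_or_ge m (K + 1) with c | c
        · rw [e m (by omega)]; exact hg m (by omega)
        · obtain rfl : m = K + 1 := by omega
          simpa using gy
      · rcases Nat.lt_or_ge m K with c | c
        · rw [e m (by omega), e (m + 1) (by omega)]; exact hd m c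
        · obtain rfl : m = K := by omega
          rw [e m le_rfl]; simpa using hy
      · rcases Nat.lt_or_ge m (K + 1) with c | c
        · rw [alive_congr h Z _ x m fun k hk => e k (by omega)]; exact ha m (by omega)
        · obtain rfl : m = K + 1 := by omega
          unfold alive
          rw [sum_range_succ]
          simp only [Function.update_self, tsub_self, pow_zero, one_mul]
          have e1 : ∑ m ∈ range (K + 1), (3 / 2 : ℝ) ^ (K + 1 - m) *
              ((Z m (Function.update x (K + 1) y m)).filter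
                fun ζ => |ζ - y| < 3 * h (K + 1)).card = 3 / 2 * W y := by
            simp only [W]
            rw [mul_sum]
            refine sum_congr rfl fun m hm => ?_
            have hm' : m ≤ K := by simpa [Nat.lt_succ_iff] using hm
            rw [e m hm', show K + 1 - m = K - m + 1 by omega, pow_succ]
            ring
          rw [e1]
          have : (((Z (K + 1) y).filter fun ζ => |ζ - y| < 3 * h (K + 1)).card : ℝ) ≤ N := by
            exact_mod_cast (card_filter_le _ _).trans (hZ _ _)
          linarith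
  obtain ⟨x, hx0, hg, hd, ha⟩ := main M le_rfl
  have hdist : ∀ k m, m + k = M → |x M - x m| ≤ 2 * h m := by
    intro k
    induction k with
    | zero => intro m hm; obtain rfl : m = M := by omega
              have := hpos m; simp; linarith
    | succ k ih =>
      intro m hm
      have h1 := ih (m + 1) (by omega)
      have h2 := hd m (by omega)
      have := abs_sub_le (x M) (x (m + 1)) (x m)
      have := hdec m
      linarith
  refine ⟨x, hx0, fun m hm => ⟨hg m hm, hdist (M - m) m (by omega)⟩, fun m hm ζ hζ => ?_⟩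
  have h1 := ha (m + R) hm
  have h2 : (3 / 2 : ℝ) ^ (m + R - m) *
      ((Z m (x m)).filter fun ζ => |ζ - x (m + R)| < 3 * h (m + R)).card ≤ alive h Z x (m + R) := by
    unfold alive
    exact single_le_sum (f := fun k => (3 / 2 : ℝ) ^ (m + R - k) *
      (((Z k (x k)).filter fun ζ => |ζ - x (m + R)| < 3 * h (m + R)).card : ℝ))
      (fun k _ => by positivity) (by simp)
  rw [show m + R - m = R by omega] at h2
  have h3 : 3 * h (m + R) ≤ |ζ - x (m + R)| := by
    by_contra c
    push Not at c
    have : 1 ≤ (((Z m (x m)).filter fun ζ => |ζ - x (m + R)| < 3 * h (m + R)).card : ℝ) := by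
      exact_mod_cast card_pos.2 ⟨ζ, mem_filter.2 ⟨hζ, c⟩⟩
    have : (3 / 2 : ℝ) ^ R ≤ 4 * N := by
      calc _ = (3 / 2 : ℝ) ^ R * 1 := by ring
        _ ≤ _ := mul_le_mul_of_nonneg_left this (by positivity)
        _ ≤ _ := h2.trans h1
    linarith
  have h4 := hdist (M - (m + R)) (m + R) (by omega)
  have := abs_sub_le ζ (x M) (x (m + R))
  rw [abs_sub_comm ζ (x M)] at this
  linarith

end Pool.Agent.P.MP_bdd694_an
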