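import Pool.Agent.P.MP_bdd694_an.Mass

/-! Constants, safe points, the dichotomy and the bookkeeping of gains and losses. -/

open Finset

set_option linter.dupNamespace false

namespace Pool.Agent.P.MP_bdd694_an

structure Par where
  q : ℝ
  k : ℕ
  e : ℕ
  P : ℕ

namespace Par

variable (p : Par)

noncomputable def R : ℝ := p.q ^ p.k
noncomputable def V : ℝ := p.R ^ p.e
noncomputable def z (m : ℕ) : ℝ := p.R ^ (2 * m)
noncomputable def γ : ℝ := 1 - 1 / p.q
noncomputable def ε₁ : ℝ := 1 / (p.γ * p.R)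
noncomputable def c₀ : ℝ := 1 / (16 * p.k)
noncomputable def ζ : ℝ := p.c₀ / 48
noncomputable def η : ℝ := p.ζ / 48
noncomputable def η₁ : ℝ := 2 * p.η / p.P
noncomputable def ε : ℝ := p.η₁ / (p.k * (2 * p.e + 2) : ℕ)
noncomputable def ε₂ : ℝ := 1 / (p.η * p.V ^ 2) + 2 / p.P + p.R / p.V
noncomputable def a : ℝ := p.ζ / 4 / p.R ^ (2 + 2 * p.e * p.P + 2 * p.e)

structure Ok : Prop where
  hq : 1 < p.q
  hk : 1 ≤ p.k
  hR : 3 ≤ p.R
  he : 2 ≤ p.e
  hP : 2 ≤ p.P
  hloss : 360 * p.ε₁ ≤ p.c₀ * p.ζ / 12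
  hε₂ : 2 * p.ε₂ ≤ p.c₀ * p.ζ / 12
  hV : 4 / p.V ≤ p.c₀ / 8

def Safe (D : Data) (t : ℝ) (m : ℕ) : Prop :=
  p.η * D.S t ≤ D.S t - D.hd (p.z m * p.V) t ∧ D.S t - D.hd (p.z m * p.V) t ≤ 3 * p.η * D.S t ∧
    D.hd (p.z m * p.V) t - D.hd (p.z m / p.V) t ≤ p.η₁ * D.S t

variable {p}

namespace Ok

variable (o : p.Ok)
include o

lemma R_pos : 0 < p.R := by linarith [o.hR]
lemma one_le_R : 1 ≤ p.R := by linarith [o.hR]
lemma pow_mono {a b : ℕ} (h : a ≤ b) : p.R ^ a ≤ p.R ^ b := pow_le_pow_right₀ o.one_le_R h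
lemma V_pos : 0 < p.V := pow_pos o.R_pos _
lemma one_le_V : 1 ≤ p.V := one_le_pow₀ o.one_le_R
lemma sq_le_V : p.R ^ 2 ≤ p.V := o.pow_mono o.he
lemma z_pos (m : ℕ) : 0 < p.z m := pow_pos o.R_pos _
lemma one_le_z (m : ℕ) : 1 ≤ p.z m := one_le_pow₀ o.one_le_R
lemma z_mono {a b : ℕ} (h : a ≤ b) : p.z a ≤ p.z b := o.pow_mono (by omega)
lemma div_le_mul (m : ℕ) : p.z m / p.V ≤ p.z m * p.V :=
  (div_le_self (o.z_pos m).le o.one_le_V).trans (le_mul_of_one_le_right (o.z_pos m).le o.one_le_V)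
lemma γ_pos : 0 < p.γ := by
  have := o.hq
  have : 1 / p.q < 1 := by rw [div_lt_one (by linarith)]; exact this
  unfold γ; linarith
lemma γ_le : p.γ ≤ 1 := by
  have : 0 < 1 / p.q := by have := o.hq; positivity
  unfold γ; linarith
lemma inv_R_le : 1 / p.R ≤ p.ε₁ := by
  have := o.γ_pos; have := o.R_pos; have := o.γ_le
  unfold ε₁
  exact one_div_le_one_div_of_le (by positivity) (by nlinarith)
lemma k_pos : (1 : ℝ) ≤ p.k := by exact_mod_cast o.hk
lemma P_pos : (2 : ℝ) ≤ p.P := by exact_mod_cast o.hP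
lemma c₀_pos : 0 < p.c₀ := by have := o.k_pos; unfold c₀; positivity
lemma c₀_le : p.c₀ ≤ 1 / 16 := by
  have := o.k_pos; unfold c₀
  exact one_div_le_one_div_of_le (by norm_num) (by linarith)
lemma ζ_pos : 0 < p.ζ := by have := o.c₀_pos; unfold ζ; positivity
lemma ζ_le : p.ζ ≤ 1 / 100 := by have := o.c₀_le; unfold ζ; linarith
lemma η_pos : 0 < p.η := by have := o.ζ_pos; unfold η; positivity
lemma η_le : p.η ≤ 1 / 100 := by have := o.ζ_le; unfold η; linarith
lemma η₁_pos : 0 < p.η₁ := by have := o.η_pos; have := o.P_pos; unfold η₁; positivity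
lemma η₁_le : p.η₁ ≤ p.η := by
  have := o.η_pos; have := o.P_pos; unfold η₁
  rw [div_le_iff₀ (by linarith)]; nlinarith
lemma T_pos : (0 : ℝ) < (p.k * (2 * p.e + 2) : ℕ) := by
  have := o.hk
  exact_mod_cast Nat.mul_pos this (by omega)
lemma ε_pos : 0 < p.ε := div_pos o.η₁_pos o.T_pos
lemma a_pos : 0 < p.a := by have := o.ζ_pos; have := o.R_pos; unfold a; positivity
lemma ε₂_pos : 0 < p.ε₂ := by
  have := o.η_pos; have := o.P_pos; have := o.V_pos; have := o.R_pos
  unfold ε₂; positivity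
lemma ε₂_le : p.ε₂ ≤ p.ζ / 24 := by
  have := o.hε₂; have := o.c₀_le; have := o.ζ_pos; nlinarith

end Ok

lemma exp_small {x κ : ℝ} (h0 : 0 ≤ κ) (h1 : κ ≤ 1) : Real.exp (κ * x) ≤ 1 + κ * Real.exp x := by
  have := convexOn_exp.2 (Set.mem_univ x) (Set.mem_univ 0) h0 (sub_nonneg.2 h1) (by ring)
  simp only [smul_eq_mul, mul_zero, add_zero, Real.exp_zero, mul_one] at this
  linarith

variable {D : Data} (o : p.Ok) (L : D.Lac p.q p.V)
include o L

omit L in
lemma transfer {t t' : ℝ} {m : ℕ} (s : p.Safe D t m) (ht : t ≤ t') :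
    D.hd (p.z m / p.V) t' - D.hd (p.z m / p.V) t ≤ 1 / (p.η * p.V ^ 2) * D.S t' ∧
      D.hd (p.z m * p.V) t' - D.hd (p.z m / p.V) t' ≤ 2 / p.P * D.S t' := by
  obtain ⟨s1, -, s3⟩ := s
  set E := Real.exp (p.z m * p.V * (t' - t)) with hE
  have hE0 : 0 < E := Real.exp_pos _
  have hη := o.η_pos
  have hV := o.V_pos
  have h1 : E * (p.η * D.S t) ≤ D.S t' := by
    have := D.tail_growth (y := p.z m * p.V) ht
    have := D.hd_nonneg (p.z m * p.V) t'
    have := mul_le_mul_of_nonneg_left s1 hE0.le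
    linarith
  have h2 : E * D.S t ≤ D.S t' / p.η := by rw [le_div_iff₀ hη]; linarith
  constructor
  · have g := D.hd_growth (y := p.z m / p.V) ht
    have k : Real.exp (p.z m / p.V * (t' - t)) ≤ 1 + 1 / p.V ^ 2 * E := by
      have := exp_small (x := p.z m * p.V * (t' - t)) (κ := 1 / p.V ^ 2) (by positivity)
        (by rw [div_le_one (by positivity)]; exact one_le_pow₀ o.one_le_V)
      convert this using 2
      field_simp
    have n1 := D.hd_nonneg (p.z m / p.V) t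
    have n2 := D.hd_le_S (p.z m / p.V) t
    calc _ ≤ 1 / p.V ^ 2 * (E * D.hd (p.z m / p.V) t) := by nlinarith
      _ ≤ 1 / p.V ^ 2 * (D.S t' / p.η) := by
          gcongr; exact (mul_le_mul_of_nonneg_left n2 hE0.le).trans h2
      _ = _ := by field_simp
  · have g := D.band_growth (o.div_le_mul m) ht
    have := o.P_pos
    calc _ ≤ E * (p.η₁ * D.S t) := g.trans (mul_le_mul_of_nonneg_left s3 hE0.le)
      _ = 2 / p.P * (E * (p.η * D.S t)) := by unfold η₁; ring
      _ ≤ _ := by gcongr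

omit L in
lemma transfer_hd {t t' : ℝ} {m : ℕ} (s : p.Safe D t m) (ht : t ≤ t') :
    D.hd (p.z m * p.V) t' ≤ D.S t + p.ε₂ * D.S t' := by
  obtain ⟨h1, h2⟩ := transfer o s ht
  have := D.hd_le_S (p.z m / p.V) t
  have : 0 ≤ p.R / p.V * D.S t' := by
    have := o.R_pos; have := o.V_pos; have := D.S_nonneg t'; positivity
  unfold ε₂; linarith

lemma transfer_chg {t t' h : ℝ} {m : ℕ} (s : p.Safe D t m) (ht : t ≤ t')
    (hh : 1 / (p.R * p.z m) ≤ h) :
    ∑ j ∈ D.J, |D.b j t' - D.b j t| * min 1 (1 / (D.n j * h)) ≤ p.ε₂ * D.S t' := by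
  obtain ⟨h1, h2⟩ := transfer o s ht
  have hR := o.R_pos; have hV := o.V_pos; have hz := o.z_pos m
  have hh0 : 0 < h := lt_of_lt_of_le (by positivity) hh
  rw [D.hd_sub (o.div_le_mul m)] at h2
  rw [Data.hd, Data.hd, ← sum_sub_distrib] at h1
  have h3 : ∑ j ∈ D.J, p.R / p.V * D.b j t' = p.R / p.V * D.S t' := by rw [← mul_sum, Data.S]
  calc _ ≤ ∑ j ∈ D.J, (((if D.n j < p.z m / p.V then D.b j t' else 0) -
        if D.n j < p.z m / p.V then D.b j t else 0) +
        (if p.z m / p.V ≤ D.n j ∧ D.n j < p.z m * p.V then D.b j t' else 0) +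
        p.R / p.V * D.b j t') := by
        refine sum_le_sum fun j hj => ?_
        have b0 := D.b_nonneg j t
        have b1 := L.b_mono hj ht
        have hn := L.pos hj
        have b2 : 0 ≤ p.R / p.V * D.b j t' := by have := D.b_nonneg j t'; positivity
        have m0 : 0 ≤ min 1 (1 / (D.n j * h)) := le_min zero_le_one (by positivity)
        have m1 := min_le_left 1 (1 / (D.n j * h))
        rw [abs_of_nonneg (sub_nonneg.2 b1)]
        by_cases c1 : D.n j < p.z m / p.V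
        · simp only [c1, not_le.2 c1, if_true, false_and, if_false]; nlinarith
        by_cases c2 : D.n j < p.z m * p.V
        · simp only [c1, not_lt.1 c1, c2, if_true, true_and, if_false]; nlinarith
        · simp only [c1, c2, and_false, if_false]
          have m2 : min 1 (1 / (D.n j * h)) ≤ p.R / p.V := by
            refine (min_le_right _ _).trans ?_
            calc 1 / (D.n j * h) ≤ 1 / (p.z m * p.V * (1 / (p.R * p.z m))) := by
                  gcongr; exact not_lt.1 c2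
              _ = _ := by field_simp
          nlinarith
    _ ≤ _ := by rw [sum_add_distrib, sum_add_distrib, h3]; unfold ε₂; linarith

lemma le_of_S {t t' : ℝ} (hS : 0 < D.S t) (h : (1 + p.ζ) * D.S t ≤ D.S t') : t ≤ t' := by
  by_contra c
  have := L.S_mono (not_le.1 c).le
  nlinarith [o.ζ_pos]

lemma safe_sep (hS : ∀ t, 0 < D.S t) {t t' : ℝ} {m m' : ℕ} (s : p.Safe D t m) (s' : p.Safe D t' m')
    (h : (1 + p.ζ) * D.S t ≤ D.S t') : m < m' := by
  by_contra c
  have h1 := transfer_hd o s (le_of_S o L (hS t) h)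
  have h2 : D.hd (p.z m' / p.V) t' ≤ D.hd (p.z m * p.V) t' :=
    D.hd_mono ((o.div_le_mul m').trans
      (mul_le_mul_of_nonneg_right (o.z_mono (not_lt.1 c)) o.V_pos.le)) _
  obtain ⟨-, s2, s3⟩ := s'
  have h3 := o.η₁_le
  have h4 := o.ε₂_le
  have h5 := o.ζ_pos
  have h6 := o.ζ_le
  have h7 := hS t
  have h8 := hS t'
  have h9 : p.η = p.ζ / 48 := rfl
  have k1 : D.S t ≤ (1 - p.ζ / 2) * D.S t' := by
    have : (1 + p.ζ) * D.S t ≤ (1 + p.ζ) * ((1 - p.ζ / 2) * D.S t') := by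
      have : 0 ≤ p.ζ * (1 - p.ζ) * D.S t' := by
        apply mul_nonneg (mul_nonneg h5.le (by linarith)) h8.le
      nlinarith
    exact le_of_mul_le_mul_left this (by linarith)
  have k2 : p.η₁ * D.S t' ≤ p.η * D.S t' := by gcongr
  have k3 : p.ε₂ * D.S t' ≤ p.ζ / 24 * D.S t' := by gcongr
  have k4 : 0 < p.ζ * D.S t' := by positivity
  rw [h9] at s2 k2
  nlinarith

omit L in
lemma safe_lt (hS : ∀ t, 0 < D.S t) {M : ℕ} (hM : ∀ j ∈ D.J, D.n j < p.z M) {t : ℝ} {m : ℕ}
    (s : p.Safe D t m) : m < M := by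
  by_contra c
  have h1 : D.hd (p.z m * p.V) t = D.S t := D.hd_eq_S (fun j hj => (hM j hj).trans_le
    ((o.z_mono (not_lt.1 c)).trans (le_mul_of_one_le_right (o.z_pos m).le o.one_le_V))) t
  have := s.1
  rw [h1] at this
  nlinarith [mul_pos o.η_pos (hS t)]

lemma safe_pos (hS : ∀ t, 0 < D.S t) {t : ℝ} {m : ℕ} (s : p.Safe D t m) : 0 < m := by
  by_contra c
  obtain rfl : m = 0 := by omega
  have h1 : D.hd (p.z 0 * p.V) t = 0 := D.hd_eq_zero (fun j hj => by simpa [z] using L.le j hj) t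
  have := s.2.1
  rw [h1] at this
  nlinarith [o.η_le, hS t]

theorem dichotomy (hS : ∀ t, 0 < D.S t) {M : ℕ} (hM : ∀ j ∈ D.J, D.n j < p.z M) (t : ℝ) :
    (∃ t' m, p.Safe D t' m ∧ D.S t ≤ D.S t' ∧ D.S t' ≤ (1 + p.ζ) * D.S t) ∨
      ∃ j ∈ D.J, p.ε * D.S t ≤ D.b j t ∧ D.S (t + p.a / D.n j) ≤ (1 + p.ζ) * D.S t := by
  classical
  have hη := o.η_pos
  have hη1 := o.η_le
  have hSt := hS t
  have hR := o.R_pos
  have hV := o.V_pos
  have hζ := o.ζ_pos
  have ex : ∃ m, D.S t - D.hd (p.z (m + 1) * p.V) t < p.η * D.S t := by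
    refine ⟨M, ?_⟩
    rw [D.hd_eq_S (fun j hj => (hM j hj).trans_le ((o.z_mono (Nat.le_succ M)).trans
      (le_mul_of_one_le_right (o.z_pos _).le o.one_le_V))) t, sub_self]
    positivity
  set m := Nat.find ex with hm
  have m1 : D.S t - D.hd (p.z (m + 1) * p.V) t < p.η * D.S t := Nat.find_spec ex
  have m0 : p.η * D.S t ≤ D.S t - D.hd (p.z m * p.V) t := by
    rcases Nat.eq_zero_or_pos m with e | e
    · rw [e, D.hd_eq_zero (fun j hj => by simpa [z] using L.le j hj) t]; nlinarith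
    · have := Nat.find_min ex (m := m - 1) (by omega)
      rw [show m - 1 + 1 = m by omega] at this
      exact not_lt.1 this
  have zz : p.z m * p.V ≤ p.z (m + 1) * p.V := by gcongr; exact o.z_mono (Nat.le_succ m)
  by_cases big : ∃ j ∈ D.J, p.z m / p.V ≤ D.n j ∧ p.ε * D.S t ≤ D.b j t
  swap
  · left
    push Not at big
    have hb : D.hd (p.z (m + 1) * p.V) t - D.hd (p.z m / p.V) t ≤
        (p.k * (2 * p.e + 2) : ℕ) * (p.ε * D.S t) := by
      refine L.band_le o.hq (div_pos (o.z_pos m) hV) ((o.div_le_mul m).trans zz) (le_of_eq ?_)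
        (mul_pos o.ε_pos hSt).le fun j hj h1 _ => (big j hj h1).le
      rw [pow_mul]
      change _ = _ * p.R ^ (2 * p.e + 2)
      unfold z V; field_simp; ring
    have e : (p.k * (2 * p.e + 2) : ℕ) * (p.ε * D.S t) = p.η₁ * D.S t := by
      have := o.T_pos
      unfold ε; field_simp
    rw [e] at hb
    have k1 := D.hd_mono zz t
    have k2 := D.hd_mono (o.div_le_mul m) t
    have k3 : p.η₁ * D.S t ≤ p.η * D.S t := by gcongr; exact o.η₁_le
    have k4 : 0 < p.η * D.S t := by positivity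
    exact ⟨t, m, ⟨m0, by linarith, by linarith⟩, le_rfl, by nlinarith⟩
  obtain ⟨j, hj, hj1, hj2⟩ := big
  set y := p.z (m + 1 + p.e * p.P) * p.V with hy
  have hy0 : 0 < y := mul_pos (o.z_pos _) hV
  have yy : p.z (m + 1) * p.V ≤ y := by rw [hy]; gcongr; exact o.z_mono (by omega)
  set t'' := t + p.ζ / 4 / y with ht''
  have tt : t ≤ t'' := by rw [ht'']; have : 0 < p.ζ / 4 / y := by positivity
                          linarith
  have ex4 : ∀ t' ∈ Set.Icc t t'', Real.exp (y * (t' - t)) ≤ 1 + p.ζ / 2 := by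
    intro t' h
    have h1 : y * (t' - t) ≤ p.ζ / 4 := by
      calc _ ≤ y * (p.ζ / 4 / y) := by gcongr; linarith [h.2]
        _ = _ := by field_simp
    have h2 := o.ζ_le
    have := Real.abs_exp_sub_one_le (x := p.ζ / 4) (by rw [abs_of_pos (by positivity)]; linarith)
    rw [abs_of_pos (by positivity : 0 < p.ζ / 4)] at this
    have := (abs_le.1 this).2
    have := Real.exp_le_exp.2 h1
    linarith
  have near : ∀ t' ∈ Set.Icc t t'', D.S t' - D.hd y t' ≤ p.η * D.S t' →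
      D.S t' ≤ (1 + p.ζ) * D.S t := by
    intro t' h h'
    have g := D.hd_growth (y := y) h.1
    have g1 : D.hd y t' ≤ (1 + p.ζ / 2) * D.S t :=
      g.trans (mul_le_mul (ex4 t' h) (D.hd_le_S _ _) (D.hd_nonneg _ _) (by positivity))
    have h9 : p.η = p.ζ / 48 := rfl
    have h2 := o.ζ_le
    have : (1 - p.η) * D.S t' ≤ (1 - p.η) * ((1 + p.ζ) * D.S t) := by
      have : 0 ≤ p.ζ * (1 / 2 - 1 / 48 - p.ζ / 48) * D.S t := by
        apply mul_nonneg (mul_nonneg hζ.le (by linarith)) hSt.le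
      rw [h9] at h' ⊢
      nlinarith
    exact le_of_mul_le_mul_left this (by linarith)
  by_cases cA : D.S t'' - D.hd y t'' ≤ p.η * D.S t''
  · right
    refine ⟨j, hj, hj2, le_trans (L.S_mono ?_) (near t'' ⟨tt, le_rfl⟩ cA)⟩
    rw [ht'']
    have : p.a / D.n j ≤ p.a / (p.z m / p.V) := by
      have := o.a_pos; have := o.z_pos m
      gcongr
    have e : p.a / (p.z m / p.V) = p.ζ / 4 / y := by
      rw [hy]; unfold a z V; field_simp; ring
    linarith
  left
  have cont : ContinuousOn (fun s => D.S s - D.hd y s - p.η * D.S s) (Set.Icc t t'') :=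
    ((D.continuous_S.sub (D.continuous_hd y)).sub (continuous_const.mul D.continuous_S)).continuousOn
  have k0 := D.hd_mono yy t
  obtain ⟨t', ht', e⟩ := intermediate_value_Icc tt cont
    (show (0 : ℝ) ∈ Set.Icc _ _ from ⟨by linarith, by linarith⟩)
  simp only at e
  have S1 := L.S_mono ht'.1
  have mass : D.hd y t' - D.hd (p.z (m + 1) * p.V) t' ≤ 2 * p.η * D.S t' := by
    have g := D.band_growth yy ht'.1
    have k1 := D.hd_le_S y t
    have k2 : Real.exp (y * (t' - t)) ≤ 2 := by linarith [ex4 t' ht', o.ζ_le]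
    calc _ ≤ 2 * (p.η * D.S t) :=
          g.trans (mul_le_mul k2 (by linarith) (by linarith) (by norm_num))
      _ ≤ _ := by rw [← mul_assoc]; gcongr
  let φ : ℕ → ℝ := fun i => D.hd (p.z (m + 1 + p.e * i) * p.V) t'
  have pig : ∃ i ∈ range p.P, φ (i + 1) - φ i ≤ p.η₁ * D.S t' := by
    by_contra no
    push Not at no
    have h1 : ∑ _i ∈ range p.P, p.η₁ * D.S t' < ∑ i ∈ range p.P, (φ (i + 1) - φ i) :=
      sum_lt_sum_of_nonempty ⟨0, by have := o.hP; simp; omega⟩ no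
    rw [sum_range_sub, sum_const, card_range, nsmul_eq_mul] at h1
    have h2 : (p.P : ℝ) * (p.η₁ * D.S t') = 2 * p.η * D.S t' := by
      have := o.P_pos
      unfold η₁; field_simp
    simp only [φ, mul_zero, add_zero] at h1
    linarith
  obtain ⟨i, hi, hpig⟩ := pig
  have hi' : i + 1 ≤ p.P := by simpa using hi
  have e1 : p.z (m + 1 + p.e * (i + 1)) / p.V = p.z (m + 1 + p.e * i) * p.V := by
    unfold z V; field_simp; ring
  have a1 : D.hd (p.z (m + 1 + p.e * (i + 1)) * p.V) t' ≤ D.hd y t' := by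
    apply D.hd_mono; rw [hy]; gcongr
    exact o.z_mono (by gcongr)
  have a2 : D.hd (p.z (m + 1) * p.V) t' ≤ D.hd (p.z (m + 1 + p.e * (i + 1)) * p.V) t' := by
    apply D.hd_mono; gcongr
    exact o.z_mono (by omega)
  exact ⟨t', m + 1 + p.e * (i + 1), ⟨by linarith, by linarith, by rw [e1]; exact hpig⟩, S1,
    near t' ht' (by linarith)⟩

end Par

lemma gain_sum (φ : ℕ → ℝ) (hφ : Monotone φ) (r : ℕ → ℕ) (hr : ∀ m, r m ≤ 1) {a b : ℕ} (hab : a < b)
    (h : ∀ m, a < m → m < b →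
      φ (2 * m + r m + 1) - φ (2 * m + r m) ≤ (φ (2 * m + 2) - φ (2 * m)) / 2) :
    (φ (2 * b) - φ (2 * a + 2)) / 2 + (φ (2 * b + r b) - φ (2 * b)) ≤
      ∑ m ∈ Ico a b, (φ (2 * (m + 1) + r (m + 1)) - φ (2 * m + r m + 1)) := by
  induction b, hab using Nat.le_induction with
  | base =>
    have : φ (2 * a + r a + 1) ≤ φ (2 * a + 2) := hφ (by have := hr a; omega)
    simp only [Nat.succ_eq_add_one, Nat.Ico_succ_singleton, sum_singleton,
      show 2 * (a + 1) = 2 * a + 2 by ring]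
    linarith
  | succ b hb ih =>
    rw [sum_Ico_succ_top (by omega)]
    have h1 := ih fun m h1 h2 => h m h1 (by omega)
    have h2 := h b hb (by omega)
    rw [show 2 * (b + 1) = 2 * b + 2 by ring]
    linarith

end Pool.Agent.P.MP_bdd694_an
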