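import Mathlib

/-! A Cartan type lower bound for bounded entire functions, on a disc and on a half plane. -/

open Complex Metric Set InnerProductSpace

namespace Pool.Agent.P.MP_bdd694_an

lemma harnack_center {u : ℂ → ℝ} {R : ℝ} (hR : 0 < R) (hu : HarmonicOnNhd u (closedBall 0 R))
    (hpos : ∀ z ∈ sphere (0 : ℂ) R, 0 ≤ u z) {w : ℂ} (hw : w ∈ ball (0 : ℂ) R) :
    (R - ‖w‖) / (R + ‖w‖) * u 0 ≤ u w ∧ u w ≤ (R + ‖w‖) / (R - ‖w‖) * u 0 := by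
  have habs : |R| = R := abs_of_pos hR
  have hc : ContinuousOn u (sphere (0 : ℂ) R) := hu.continuousOn.mono sphere_subset_closedBall
  have h0 : Real.circleAverage u 0 R = u 0 := by
    apply InnerProductSpace.HarmonicOnNhd.circleAverage_eq; rwa [habs]
  have hk : ContinuousOn (re ∘ herglotzRieszKernel 0 w) (sphere (0 : ℂ) R) := by
    have := continuousOn_herglotzRieszKernel_sphere hw
    rw [habs] at this
    exact continuous_re.comp_continuousOn this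
  have h1 := hu.circleAverage_re_herglotzRieszKernel_smul hw
  have i1 : CircleIntegrable ((re ∘ herglotzRieszKernel 0 w) • u) 0 R :=
    (hk.smul hc).circleIntegrable hR.le
  have i2 : ∀ a : ℝ, CircleIntegrable (a • u) 0 R := fun a =>
    (hc.const_smul a).circleIntegrable hR.le
  constructor
  · rw [← h1, ← h0, ← smul_eq_mul, ← Real.circleAverage_smul]
    refine Real.circleAverage_mono (i2 _) i1 fun x hx => ?_
    rw [habs] at hx
    have := le_re_herglotzRieszKernel hx hw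
    simp only [sub_zero] at this
    simp only [Pi.smul_apply, smul_eq_mul, Pi.smul_apply', Function.comp_apply,
      herglotzRieszKernel_def, sub_zero]
    exact mul_le_mul_of_nonneg_right this (hpos x hx)
  · rw [← h1, ← h0, ← smul_eq_mul, ← Real.circleAverage_smul]
    refine Real.circleAverage_mono i1 (i2 _) fun x hx => ?_
    rw [habs] at hx
    have := re_herglotzRieszKernel_le hx hw
    simp only [sub_zero] at this
    simp only [Pi.smul_apply, smul_eq_mul, Pi.smul_apply', Function.comp_apply,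
      herglotzRieszKernel_def, sub_zero]
    exact mul_le_mul_of_nonneg_right this (hpos x hx)

lemma harnack {u : ℂ → ℝ} {r R : ℝ} (hr : 0 ≤ r) (hrR : r < R)
    (hu : HarmonicOnNhd u (closedBall 0 R))
    (hpos : ∀ z ∈ closedBall (0 : ℂ) R, 0 ≤ u z) {z w : ℂ} (hz : ‖z‖ ≤ r) (hw : ‖w‖ ≤ r) :
    u z ≤ ((R + r) / (R - r)) ^ 2 * u w := by
  have hR : 0 < R := hr.trans_lt hrR
  have hs : ∀ z ∈ sphere (0 : ℂ) R, 0 ≤ u z := fun z hz => hpos z (sphere_subset_closedBall hz)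
  have h1 := (harnack_center hR hu hs (w := z) (by simpa using hz.trans_lt hrR)).2
  have h2 := (harnack_center hR hu hs (w := w) (by simpa using hw.trans_lt hrR)).1
  have h0 : 0 ≤ u 0 := hpos 0 (by simpa using hR.le)
  have hd : 0 < R - r := by linarith
  have a1 : (R + ‖z‖) / (R - ‖z‖) ≤ (R + r) / (R - r) := by
    gcongr
  have a2 : (R - r) / (R + r) ≤ (R - ‖w‖) / (R + ‖w‖) := by
    have := norm_nonneg w
    gcongr
    linarith
  have a3 : u 0 ≤ (R + r) / (R - r) * u w := by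
    have : (R - r) / (R + r) * u 0 ≤ u w := (mul_le_mul_of_nonneg_right a2 h0).trans h2
    rw [div_mul_eq_mul_div, div_le_iff₀ (by linarith)] at this
    rw [div_mul_eq_mul_div, le_div_iff₀ hd]
    linarith
  have hq : 0 ≤ (R + r) / (R - r) := by positivity
  calc u z ≤ (R + r) / (R - r) * u 0 := h1.trans (mul_le_mul_of_nonneg_right a1 h0)
    _ ≤ (R + r) / (R - r) * ((R + r) / (R - r) * u w) := mul_le_mul_of_nonneg_left a3 hq
    _ = _ := by ring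

lemma zero_free {g : ℂ → ℂ} (hg : Differentiable ℂ g) {r R L : ℝ} (hr : 0 ≤ r) (hrR : r < R)
    (hb : ∀ z, ‖z‖ ≤ R → ‖g z‖ ≤ 1) (hz0 : ∀ z, ‖z‖ ≤ R → g z ≠ 0) {z w : ℂ} (hz : ‖z‖ ≤ r)
    (hw : ‖w‖ ≤ r) (hL : Real.exp (-L) ≤ ‖g w‖) :
    Real.exp (-(((R + r) / (R - r)) ^ 2 * L)) ≤ ‖g z‖ := by
  have hu : HarmonicOnNhd (-(fun z => Real.log ‖g z‖)) (closedBall 0 R) := by
    refine HarmonicOnNhd.neg fun x hx => ?_
    exact (hg.analyticAt x).harmonicAt_log_norm (hz0 x (by simpa using hx))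
  have h := harnack hr hrR hu (fun x hx => by
    have hx' : ‖x‖ ≤ R := by simpa using hx
    simpa using Real.log_nonpos (norm_nonneg _) (hb x hx')) hz hw
  simp only [Pi.neg_apply] at h
  have hgw : 0 < ‖g w‖ := (Real.exp_pos _).trans_le hL
  have hgz : 0 < ‖g z‖ := norm_pos_iff.2 (hz0 z (hz.trans hrR.le))
  have h1 : -L ≤ Real.log ‖g w‖ := (Real.le_log_iff_exp_le hgw).2 hL
  rw [← Real.le_log_iff_exp_le hgz]
  have hq : 0 ≤ ((R + r) / (R - r)) ^ 2 := sq_nonneg _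
  nlinarith

lemma blaschke_id (z ζ : ℂ) :
    ‖1 - (starRingEnd ℂ) ζ * z‖ ^ 2 - ‖z - ζ‖ ^ 2 = (1 - ‖z‖ ^ 2) * (1 - ‖ζ‖ ^ 2) := by
  simp only [Complex.sq_norm, normSq_apply, sub_re, sub_im, mul_re, mul_im, one_re, one_im,
    conj_re, conj_im]
  ring

lemma blaschke_le_two {z ζ : ℂ} (hz : ‖z‖ ≤ 1) (hζ : ‖ζ‖ ≤ 1) :
    ‖1 - (starRingEnd ℂ) ζ * z‖ ≤ 2 := by
  calc _ ≤ ‖(1 : ℂ)‖ + ‖(starRingEnd ℂ) ζ * z‖ := norm_sub_le _ _
    _ = 1 + ‖ζ‖ * ‖z‖ := by simp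
    _ ≤ 2 := by nlinarith [norm_nonneg z, norm_nonneg ζ]

lemma exists_tau {R : ℝ} (hR0 : 0 ≤ R) (hR : R < 1) :
    ∃ l : ℝ, 0 < l ∧ ∀ z ζ : ℂ, ‖z‖ ≤ R → ‖ζ‖ ≤ R →
      ‖z - ζ‖ ≤ Real.exp (-l) * ‖1 - (starRingEnd ℂ) ζ * z‖ := by
  have hp : 0 < 1 - R ^ 2 := by nlinarith
  refine ⟨(1 - R ^ 2) ^ 2 / 8, by positivity, fun z ζ hz hζ => ?_⟩
  set d := (1 - R ^ 2) ^ 2 with hd
  have hd0 : 0 < d := by positivity
  have h1 := blaschke_id z ζ
  have h2 := blaschke_le_two (hz.trans hR.le) (hζ.trans hR.le)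
  have hz2 : ‖z‖ ^ 2 ≤ R ^ 2 := by gcongr
  have hζ2 : ‖ζ‖ ^ 2 ≤ R ^ 2 := by gcongr
  have h3 : d ≤ (1 - ‖z‖ ^ 2) * (1 - ‖ζ‖ ^ 2) := by
    rw [hd, sq (1 - R ^ 2)]
    apply mul_le_mul <;> linarith
  set B := ‖1 - (starRingEnd ℂ) ζ * z‖
  have hB : 0 ≤ B := norm_nonneg _
  have hB2 : B ^ 2 ≤ 4 := by nlinarith
  have he : 1 - d / 4 ≤ Real.exp (-(d / 8)) ^ 2 := by
    rw [← Real.exp_nat_mul]
    have := Real.add_one_le_exp ((2 : ℕ) * -(d / 8))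
    push_cast at this ⊢
    linarith
  refine abs_le_of_sq_le_sq' ?_ (by positivity) |>.2
  rw [mul_pow]
  nlinarith [sq_nonneg B]

lemma cartan_disc_aux {r R l : ℝ} (hr : 0 ≤ r) (hrR : r < R) (hR : R < 1) (hl : 0 < l)
    (hτ : ∀ z ζ : ℂ, ‖z‖ ≤ R → ‖ζ‖ ≤ R →
      ‖z - ζ‖ ≤ Real.exp (-l) * ‖1 - (starRingEnd ℂ) ζ * z‖) (N : ℕ) :
    ∀ g : ℂ → ℂ, Differentiable ℂ g → (∀ z, ‖z‖ ≤ 1 → ‖g z‖ ≤ 1) → ∀ w, ‖w‖ ≤ r →
      Real.exp (-(N * l)) ≤ ‖g w‖ →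
      ∃ Z : Finset ℂ, Z.card ≤ N ∧ ∀ δ : ℝ, 0 < δ → δ ≤ 1 → ∀ z, ‖z‖ ≤ r →
        (∀ ζ ∈ Z, δ ≤ ‖z - ζ‖) →
        Real.exp (-(((R + r) / (R - r)) ^ 2 * (N * l))) * (δ / 2) ^ N ≤ ‖g z‖ := by
  classical
  have free : ∀ (N : ℕ) (g : ℂ → ℂ), Differentiable ℂ g → (∀ z, ‖z‖ ≤ 1 → ‖g z‖ ≤ 1) →
      ∀ w, ‖w‖ ≤ r → Real.exp (-(N * l)) ≤ ‖g w‖ → (∀ z, ‖z‖ ≤ R → g z ≠ 0) →
      ∃ Z : Finset ℂ, Z.card ≤ N ∧ ∀ δ : ℝ, 0 < δ → δ ≤ 1 → ∀ z, ‖z‖ ≤ r →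
        (∀ ζ ∈ Z, δ ≤ ‖z - ζ‖) →
        Real.exp (-(((R + r) / (R - r)) ^ 2 * (N * l))) * (δ / 2) ^ N ≤ ‖g z‖ := by
    intro N g hg hb w hw hL h0
    refine ⟨∅, by simp, fun δ hδ hδ1 z hz _ => ?_⟩
    have := zero_free hg hr hrR (fun z hz => hb z (hz.trans hR.le)) h0 hz hw hL
    have h1 : (δ / 2) ^ N ≤ 1 := pow_le_one₀ (by positivity) (by linarith)
    exact (mul_le_of_le_one_right (Real.exp_pos _).le h1).trans this
  have divide : ∀ (g : ℂ → ℂ), Differentiable ℂ g → (∀ z, ‖z‖ ≤ 1 → ‖g z‖ ≤ 1) →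
      ∀ ζ, ‖ζ‖ ≤ R → g ζ = 0 → ∃ h : ℂ → ℂ, Differentiable ℂ h ∧ (∀ z, ‖z‖ ≤ 1 → ‖h z‖ ≤ 1) ∧
        ∀ z, ‖h z‖ * ‖z - ζ‖ = ‖g z‖ * ‖1 - (starRingEnd ℂ) ζ * z‖ := by
    intro g hg hb ζ hζ h0
    have hd : Differentiable ℂ (dslope g ζ) := by
      rw [← differentiableOn_univ] at hg ⊢
      exact (differentiableOn_dslope Filter.univ_mem).2 hg
    have key : ∀ z, ‖dslope g ζ z * (1 - (starRingEnd ℂ) ζ * z)‖ * ‖z - ζ‖ =
        ‖g z‖ * ‖1 - (starRingEnd ℂ) ζ * z‖ := by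
      intro z
      have := sub_smul_dslope g ζ z
      rw [h0, sub_zero, smul_eq_mul] at this
      rw [← this, norm_mul, norm_mul]; ring
    have hdiff : Differentiable ℂ fun z => dslope g ζ z * (1 - (starRingEnd ℂ) ζ * z) := by
      fun_prop
    refine ⟨_, hdiff, fun z hz => ?_, key⟩
    refine Complex.norm_le_of_forall_mem_frontier_norm_le (U := ball (0 : ℂ) 1) isBounded_ball
      hdiff.diffContOnCl (fun x hx => ?_) (by rw [closure_ball _ one_ne_zero]; simpa using hz)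
    rw [frontier_ball _ one_ne_zero] at hx
    have hx1 : ‖x‖ = 1 := by simpa using hx
    have e := blaschke_id x ζ
    rw [hx1] at e
    have e2 : ‖1 - (starRingEnd ℂ) ζ * x‖ = ‖x - ζ‖ := by
      have : ‖1 - (starRingEnd ℂ) ζ * x‖ ^ 2 = ‖x - ζ‖ ^ 2 := by linarith
      exact (pow_left_inj₀ (norm_nonneg _) (norm_nonneg _) two_ne_zero).1 this
    have hne : 0 < ‖x - ζ‖ := by
      rw [norm_pos_iff, sub_ne_zero]
      rintro rfl
      linarith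
    have k := key x
    rw [e2] at k
    rw [mul_right_cancel₀ hne.ne' k]
    exact hb x hx1.le
  induction N with
  | zero =>
    intro g hg hb w hw hL
    by_cases h0 : ∀ z, ‖z‖ ≤ R → g z ≠ 0
    · exact free 0 g hg hb w hw hL h0
    · exfalso
      push Not at h0
      obtain ⟨ζ, hζ, h0⟩ := h0
      obtain ⟨h, -, hhb, hk⟩ := divide g hg hb ζ hζ h0
      have k := hk w
      have t := hτ w ζ (hw.trans hrR.le) hζ
      have hw1 : ‖h w‖ ≤ 1 := hhb w (by linarith)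
      have hg1 : 1 ≤ ‖g w‖ := by simpa using hL
      have hlt : Real.exp (-l) < 1 := by simpa using hl
      set B := ‖1 - (starRingEnd ℂ) ζ * w‖
      have hB : 0 < B := by
        have e := blaschke_id w ζ
        have h1 : 0 < (1 - ‖w‖ ^ 2) * (1 - ‖ζ‖ ^ 2) := by
          have := norm_nonneg w; have := norm_nonneg ζ
          apply mul_pos <;> nlinarith
        have : 0 < B ^ 2 := by nlinarith [sq_nonneg ‖w - ζ‖]
        exact lt_of_le_of_ne (norm_nonneg _) fun h => by rw [← h] at this; simp at this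
      have := norm_nonneg (w - ζ)
      nlinarith
  | succ N ih =>
    intro g hg hb w hw hL
    by_cases h0 : ∀ z, ‖z‖ ≤ R → g z ≠ 0
    · exact free (N + 1) g hg hb w hw hL h0
    push Not at h0
    obtain ⟨ζ, hζ, h0⟩ := h0
    obtain ⟨h, hh, hhb, hk⟩ := divide g hg hb ζ hζ h0
    have hBpos : ∀ w : ℂ, ‖w‖ ≤ r → 0 < ‖1 - (starRingEnd ℂ) ζ * w‖ := by
      intro w hw
      have e := blaschke_id w ζ
      have h1 : 0 < (1 - ‖w‖ ^ 2) * (1 - ‖ζ‖ ^ 2) := by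
        have := norm_nonneg w; have := norm_nonneg ζ
        apply mul_pos <;> nlinarith
      have : 0 < ‖1 - (starRingEnd ℂ) ζ * w‖ ^ 2 := by nlinarith [sq_nonneg ‖w - ζ‖]
      exact lt_of_le_of_ne (norm_nonneg _) fun h => by rw [← h] at this; simp at this
    have hL' : Real.exp (-(N * l)) ≤ ‖h w‖ := by
      have k := hk w
      have t := hτ w ζ (hw.trans hrR.le) hζ
      have hB := hBpos w hw
      set B := ‖1 - (starRingEnd ℂ) ζ * w‖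
      have e : Real.exp (-(((N + 1 : ℕ) : ℝ) * l)) = Real.exp (-(N * l)) * Real.exp (-l) := by
        rw [← Real.exp_add]; congr 1; push_cast; ring
      rw [e] at hL
      have h1 : Real.exp (-(N * l)) * Real.exp (-l) * B ≤ ‖h w‖ * (Real.exp (-l) * B) := by
        calc _ ≤ ‖g w‖ * B := by gcongr
          _ = ‖h w‖ * ‖w - ζ‖ := k.symm
          _ ≤ _ := by gcongr
      have h2 : 0 < Real.exp (-l) * B := by positivity
      rw [mul_assoc] at h1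
      exact le_of_mul_le_mul_right h1 h2
    obtain ⟨Z, hZ, hlow⟩ := ih h hh hhb w hw hL'
    refine ⟨insert ζ Z, (Finset.card_insert_le _ _).trans (by omega), fun δ hδ hδ1 z hz hd => ?_⟩
    have h1 := hlow δ hδ hδ1 z hz fun x hx => hd x (Finset.mem_insert_of_mem hx)
    have h2 := hd ζ (Finset.mem_insert_self _ _)
    have h3 := blaschke_le_two (z := z) (ζ := ζ) (by linarith) (by linarith)
    have k := hk z
    have h4 : ‖h z‖ * (δ / 2) ≤ ‖g z‖ := by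
      have : ‖h z‖ * δ ≤ ‖g z‖ * 2 := by
        calc _ ≤ ‖h z‖ * ‖z - ζ‖ := by gcongr
          _ = _ := k
          _ ≤ _ := by gcongr
      linarith
    have h5 : Real.exp (-(((R + r) / (R - r)) ^ 2 * (((N + 1 : ℕ) : ℝ) * l))) ≤
        Real.exp (-(((R + r) / (R - r)) ^ 2 * (N * l))) := by
      apply Real.exp_le_exp.2
      have : 0 ≤ ((R + r) / (R - r)) ^ 2 * l := by positivity
      push_cast; nlinarith
    calc _ ≤ Real.exp (-(((R + r) / (R - r)) ^ 2 * (N * l))) * (δ / 2) ^ (N + 1) := by gcongr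
      _ = Real.exp (-(((R + r) / (R - r)) ^ 2 * (N * l))) * (δ / 2) ^ N * (δ / 2) := by ring
      _ ≤ ‖h z‖ * (δ / 2) := by gcongr
      _ ≤ _ := h4

theorem cartan_disc {r b : ℝ} (hr : 0 ≤ r) (hr1 : r < 1) (hb : 0 < b) :
    ∃ (N : ℕ) (κ : ℝ), 0 < κ ∧ ∀ g : ℂ → ℂ, Differentiable ℂ g → (∀ z, ‖z‖ ≤ 1 → ‖g z‖ ≤ 1) →
      ∀ w, ‖w‖ ≤ r → b ≤ ‖g w‖ →
      ∃ Z : Finset ℂ, Z.card ≤ N ∧ ∀ δ : ℝ, 0 < δ → δ ≤ 1 → ∀ z, ‖z‖ ≤ r →
        (∀ ζ ∈ Z, δ ≤ ‖z - ζ‖) → κ * δ ^ N ≤ ‖g z‖ := by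
  obtain ⟨l, hl, hτ⟩ := exists_tau (R := (r + 1) / 2) (by linarith) (by linarith)
  obtain ⟨N, hN⟩ := exists_nat_ge (-Real.log b / l)
  have hbN : Real.exp (-(N * l)) ≤ b := by
    rw [← Real.le_log_iff_exp_le hb]
    rw [div_le_iff₀ hl] at hN
    linarith
  refine ⟨N, Real.exp (-((((r + 1) / 2 + r) / ((r + 1) / 2 - r)) ^ 2 * (N * l))) / 2 ^ N,
    by positivity, fun g hg hb1 w hw hbw => ?_⟩
  obtain ⟨Z, hZ, h⟩ := cartan_disc_aux hr (by linarith) (by linarith) hl hτ N g hg hb1 w hw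
    (hbN.trans hbw)
  refine ⟨Z, hZ, fun δ hδ hδ1 z hz hd => ?_⟩
  have := h δ hδ hδ1 z hz hd
  rw [div_pow δ 2] at this
  convert this using 1
  rw [div_mul_eq_mul_div, mul_div_assoc]

/-- Half plane version: `G` is bounded by one on `re ≤ a`, and at least `b` somewhere in the box
`-Y ≤ re ≤ a / 2`, `|im| ≤ A`. -/
theorem cartan_half {a Y A b : ℝ} (ha : 0 < a) (hY : 0 ≤ Y) (hb : 0 < b) :
    ∃ (N : ℕ) (κ : ℝ), 0 < κ ∧ ∀ G : ℂ → ℂ, Differentiable ℂ G → (∀ ξ, ξ.re ≤ a → ‖G ξ‖ ≤ 1) →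
      ∀ w : ℂ, -Y ≤ w.re → w.re ≤ a / 2 → |w.im| ≤ A → b ≤ ‖G w‖ →
      ∃ Z : Finset ℝ, Z.card ≤ N ∧ ∀ δ : ℝ, 0 < δ → δ ≤ 1 → ∀ ξ : ℂ,
        -Y ≤ ξ.re → ξ.re ≤ a / 2 → |ξ.im| ≤ A →
        (∀ y ∈ Z, δ ≤ |ξ.im - y|) → κ * δ ^ N ≤ ‖G ξ‖ := by
  classical
  set ρ : ℝ := Y + a + 1 + (a ^ 2 / 4 + A ^ 2) / a with hρ
  have hq : 0 ≤ (a ^ 2 / 4 + A ^ 2) / a := by positivity
  have hρ1 : 1 ≤ ρ := by linarith
  have hρ0 : 0 < ρ := by linarith
  have hgap : 0 < ρ * a - a ^ 2 / 4 - A ^ 2 := by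
    have : ρ * a = (Y + a + 1) * a + (a ^ 2 / 4 + A ^ 2) := by rw [hρ]; field_simp
    nlinarith
  set r : ℝ := Real.sqrt (((ρ - a / 2) ^ 2 + A ^ 2) / ρ ^ 2) with hr
  have hr1 : r < 1 := by
    rw [hr, Real.sqrt_lt' one_pos, div_lt_iff₀ (by positivity)]
    nlinarith
  obtain ⟨N, κ, hκ, H⟩ := cartan_disc (r := r) (Real.sqrt_nonneg _) hr1 hb
  have box : ∀ ξ : ℂ, -Y ≤ ξ.re → ξ.re ≤ a / 2 → |ξ.im| ≤ A →
      ‖(ξ - (a - ρ : ℝ)) / (ρ : ℝ)‖ ≤ r := by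
    intro ξ h1 h2 h3
    apply Real.le_sqrt_of_sq_le
    rw [norm_div, div_pow, Complex.norm_real, Real.norm_eq_abs, sq_abs, Complex.sq_norm,
      normSq_apply]
    refine div_le_div_of_nonneg_right ?_ (by positivity)
    simp only [sub_re, ofReal_re, sub_im, ofReal_im, sub_zero]
    have e1 : 0 ≤ ξ.re - (a - ρ) := by linarith
    have e2 : ξ.re - (a - ρ) ≤ ρ - a / 2 := by linarith
    have e3 : ξ.im * ξ.im ≤ A ^ 2 := by
      have := sq_abs ξ.im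
      nlinarith [abs_nonneg ξ.im]
    nlinarith
  have hρc : ((ρ : ℝ) : ℂ) ≠ 0 := by exact_mod_cast hρ0.ne'
  have back : ∀ ξ : ℂ, ((a - ρ : ℝ) : ℂ) + (ρ : ℝ) * ((ξ - (a - ρ : ℝ)) / (ρ : ℝ)) = ξ := by
    intro ξ; field_simp; ring
  refine ⟨N, κ / ρ ^ N, by positivity, fun G hG hb1 w h1 h2 h3 hw => ?_⟩
  obtain ⟨Z, hZ, h⟩ := H (fun z => G (((a - ρ : ℝ) : ℂ) + (ρ : ℝ) * z)) (by fun_prop)
    (fun z hz => by
      apply hb1
      simp only [add_re, ofReal_re, mul_re, ofReal_im, zero_mul, sub_zero]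
      have := (Complex.re_le_norm z).trans hz
      nlinarith) _ (box w h1 h2 h3) (by simpa only [back] using hw)
  refine ⟨Z.image fun ζ => ρ * ζ.im, Finset.card_image_le.trans hZ,
    fun δ hδ hδ1 ξ k1 k2 k3 hd => ?_⟩
  have := h (δ / ρ) (by positivity) (by rw [div_le_one hρ0]; linarith) _ (box ξ k1 k2 k3)
    (fun ζ hζ => by
      have k := hd _ (Finset.mem_image_of_mem _ hζ)
      refine le_trans ?_ (Complex.abs_im_le_norm _)
      have e : ((ξ - (a - ρ : ℝ)) / (ρ : ℝ) - ζ).im = (ξ.im - ρ * ζ.im) / ρ := by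
        rw [sub_im, div_ofReal_im]
        simp only [sub_im, ofReal_im, sub_zero]
        field_simp
      rw [e, abs_div, abs_of_pos hρ0]
      gcongr)
  simp only [back] at this
  rw [div_pow] at this
  convert this using 1
  ring

end Pool.Agent.P.MP_bdd694_an
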