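import Pool.Agent.P.MP_bdd694_an.Steer
import Pool.Agent.P.MP_bdd694_an.Avoid
import Pool.Agent.P.MP_bdd694_an.Cartan

/-! A finite lacunary exponential sum is comparable with the sum of the moduli of its terms on a
whole horizontal line. -/

open Finset

namespace Pool.Agent.P.MP_bdd694_an

theorem exists_par {q : ℝ} (hq : 1 < q) : ∃ p : Par, p.q = q ∧ p.Ok := by
  have hγ : 0 < 1 - 1 / q := by
    have : 1 / q < 1 := by rw [div_lt_one (by linarith)]; exact hq
    linarith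
  obtain ⟨k, hk1, hk2, hk3⟩ : ∃ k : ℕ, 1 ≤ k ∧ 3 ≤ q ^ k ∧
      (k : ℝ) ^ 2 / q ^ k ≤ (1 - 1 / q) / (360 * 576 * 256) := by
    have h1 := (tendsto_pow_const_div_const_pow_of_one_lt 2 hq).eventually
      (ge_mem_nhds (show (0 : ℝ) < (1 - 1 / q) / (360 * 576 * 256) from div_pos hγ (by norm_num)))
    have h2 := (tendsto_pow_atTop_atTop_of_one_lt hq).eventually_ge_atTop 3
    exact ((Filter.eventually_ge_atTop 1).and (h2.and h1)).exists
  have hk0 : (0 : ℝ) < k := by exact_mod_cast hk1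
  set R := q ^ k with hR
  set c : ℝ := 1 / (16 * k) with hc
  have hc0 : 0 < c := by positivity
  have hR0 : 0 < R := by linarith
  obtain ⟨P, hP⟩ := exists_nat_ge (2 + 144 / (c * (c / 48)))
  have hP0 : 0 < 144 / (c * (c / 48)) := by positivity
  obtain ⟨e, he⟩ := pow_unbounded_of_one_lt
    (72 / (c / 48 / 48 * (c * (c / 48))) + 72 * R / (c * (c / 48)) + 32 / c) (by linarith : 1 < R)
  have hV : R ^ e ≤ R ^ (e + 2) := pow_le_pow_right₀ (by linarith) (by omega)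
  have hV1 : 1 ≤ R ^ (e + 2) := one_le_pow₀ (by linarith)
  set V := R ^ (e + 2) with hVd
  have hV0 : 0 < V := by linarith
  have p1 : 0 < 72 / (c / 48 / 48 * (c * (c / 48))) := by positivity
  have p2 : 0 < 72 * R / (c * (c / 48)) := by positivity
  have p3 : 0 < 32 / c := by positivity
  refine ⟨⟨q, k, e + 2, P⟩, rfl, hq, hk1, hk2, by simp, ?_, ?_, ?_, ?_⟩
  · have : (2 : ℝ) ≤ P := by linarith
    exact_mod_cast this
  · change 360 * (1 / ((1 - 1 / q) * R)) ≤ c * (c / 48) / 12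
    rw [div_le_div_iff₀ hR0 (by norm_num)] at hk3
    rw [mul_one_div, div_le_iff₀ (by positivity), hc]
    have : 1 / (16 * (k : ℝ)) * (1 / (16 * k) / 48) / 12 * ((1 - 1 / q) * R) =
        ((1 - 1 / q) * R) / (576 * 256 * k ^ 2) := by field_simp; ring
    rw [this, le_div_iff₀ (by positivity)]
    linarith
  · change 2 * (1 / (c / 48 / 48 * V ^ 2) + 2 / (P : ℝ) + R / V) ≤ c * (c / 48) / 12
    have a1 : 1 / (c / 48 / 48 * V ^ 2) ≤ c * (c / 48) / 72 := by
      have : 72 / (c / 48 / 48 * (c * (c / 48))) ≤ V ^ 2 := by nlinarith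
      rw [div_le_iff₀ (by positivity)] at this ⊢
      linarith
    have a2 : 2 / (P : ℝ) ≤ c * (c / 48) / 72 := by
      have : 144 / (c * (c / 48)) ≤ P := by linarith
      rw [div_le_iff₀ (by positivity)] at this
      rw [div_le_iff₀ (by linarith)]
      linarith
    have a3 : R / V ≤ c * (c / 48) / 72 := by
      have : 72 * R / (c * (c / 48)) ≤ V := by linarith
      rw [div_le_iff₀ (by positivity)] at this ⊢
      linarith
    linarith
  · change 4 / V ≤ c / 8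
    have : 32 / c ≤ V := by linarith
    rw [div_le_iff₀ (by positivity)] at this ⊢
    linarith

namespace Data

variable (D : Data)

lemma F_eq (w : ℂ) : ∑ j ∈ D.J, D.c j * Complex.exp (D.n j * w) = D.F w.re w.im := by
  refine sum_congr rfl fun j _ => ?_
  rw [mul_assoc, ee, Complex.ofReal_exp, ← Complex.exp_add]
  congr 2
  conv_lhs => rw [← Complex.re_add_im w]
  push_cast; ring

lemma norm_F_le (t x : ℝ) : ‖D.F t x‖ ≤ D.S t :=
  (norm_sum_le _ _).trans (sum_le_sum fun j _ => by rw [norm_mul, norm_ee, mul_one, norm_coef])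

lemma le_norm_F {j : ℕ} (hj : j ∈ D.J) (t x : ℝ) : 2 * D.b j t - D.S t ≤ ‖D.F t x‖ := by
  rw [F, S, ← add_sum_erase _ _ hj, ← add_sum_erase _ _ hj]
  have h1 := norm_sub_le_norm_add (D.c j * (Real.exp (D.n j * t) : ℝ) * ee (D.n j * x))
    (∑ i ∈ D.J.erase j, D.c i * (Real.exp (D.n i * t) : ℝ) * ee (D.n i * x))
  have h2 : ‖∑ i ∈ D.J.erase j, D.c i * (Real.exp (D.n i * t) : ℝ) * ee (D.n i * x)‖ ≤
      ∑ i ∈ D.J.erase j, D.b i t :=
    (norm_sum_le _ _).trans (sum_le_sum fun j _ => by rw [norm_mul, norm_ee, mul_one, norm_coef])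
  rw [norm_mul, norm_ee, mul_one, norm_coef] at h1
  linarith

noncomputable def hi (y t : ℝ) : ℝ := ∑ j ∈ D.J, if y < D.n j then D.b j t else 0

lemma hi_le_S (y t : ℝ) : D.hi y t ≤ D.S t :=
  sum_le_sum fun j _ => by split_ifs; exacts [le_rfl, D.b_nonneg j t]

variable {D} {q U : ℝ}

lemma Lac.F_sub (L : D.Lac q U) (t t' x : ℝ) : ‖D.F t' x - D.F t x‖ ≤ |D.S t' - D.S t| := by
  rw [← L.sum_abs_sub, F, F, ← sum_sub_distrib]
  refine (norm_sum_le _ _).trans (sum_le_sum fun j _ => ?_)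
  rw [← sub_mul, norm_mul, norm_ee, mul_one, norm_coef_sub]

lemma Lac.split (L : D.Lac q U) (hq : 1 < q) {j : ℕ} (hj : j ∈ D.J) (t : ℝ) :
    D.S t = D.b j t + D.hd (D.n j) t + D.hi (D.n j) t := by
  rw [S, hd, hi, ← add_sum_erase _ _ hj, ← add_sum_erase _ _ hj, ← add_sum_erase _ _ hj]
  simp only [lt_irrefl, if_false, zero_add, add_assoc, ← sum_add_distrib]
  congr 1
  refine sum_congr rfl fun i hi => ?_
  have p1 := L.pos hj
  have p2 := L.pos (mem_of_mem_erase hi)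
  rcases L.lac i (mem_of_mem_erase hi) j hj (ne_of_mem_erase hi) with k | k
  · have : D.n i < D.n j := by nlinarith
    simp [this, this.not_gt]
  · have : D.n j < D.n i := by nlinarith
    simp [this, this.not_gt]

lemma Lac.diam_lo (L : D.Lac q U) (hq : 1 < q) {ε : ℝ} (hε : 0 < ε) {j : ℕ} (hj : j ∈ D.J)
    {t t' : ℝ} (ht : t ≤ t') (hS : 0 < D.S t) (h1 : ε * D.S t ≤ D.b j t)
    (h2 : D.b j t' ≤ 4 * D.hd (D.n j) t') :
    (1 - 1 / q) * (D.n j * (t' - t)) ≤ Real.log (4 / ε) := by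
  have hq0 : 0 < q := by linarith
  have g : D.hd (D.n j) t' ≤ Real.exp (D.n j / q * (t' - t)) * D.S t := by
    rw [hd, S, mul_sum]
    refine sum_le_sum fun i hi => ?_
    split_ifs with c
    · apply D.b_le_of_le _ ht
      have p2 := L.pos hi
      rcases L.lac i hi j hj (by rintro rfl; exact lt_irrefl _ c) with k | k
      · rw [le_div_iff₀ hq0]; linarith
      · nlinarith
    · have := D.b_nonneg i t; positivity
  have hb : 0 < D.b j t := lt_of_lt_of_le (by positivity) h1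
  rw [Real.le_log_iff_exp_le (by positivity), le_div_iff₀ hε]
  rw [D.b_shift j t t', show D.n j * (t' - t) = (1 - 1 / q) * (D.n j * (t' - t)) +
    D.n j / q * (t' - t) by ring, Real.exp_add] at h2
  set E := Real.exp (D.n j / q * (t' - t))
  have hE : 0 < E := Real.exp_pos _
  have : Real.exp ((1 - 1 / q) * (D.n j * (t' - t))) * ε * (E * D.b j t) ≤ 4 * (E * D.b j t) := by
    have a : E * (ε * D.S t) ≤ E * D.b j t := by gcongr
    nlinarith
  exact le_of_mul_le_mul_right this (by positivity)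

lemma Lac.diam_hi (L : D.Lac q U) (hq : 1 < q) {ε : ℝ} (hε : 0 < ε) {j : ℕ} (hj : j ∈ D.J)
    {t t' : ℝ} (ht : t ≤ t') (hS : 0 < D.S t') (h1 : ε * D.S t' ≤ D.b j t')
    (h2 : D.b j t ≤ 4 * D.hi (D.n j) t) :
    (1 - 1 / q) * (D.n j * (t' - t)) ≤ Real.log (4 / ε) := by
  have hq0 : 0 < q := by linarith
  have g : Real.exp (q * D.n j * (t' - t)) * D.hi (D.n j) t ≤ D.S t' := by
    rw [hi, S, mul_sum]
    refine sum_le_sum fun i hi => ?_
    split_ifs with c
    · apply D.le_b_of_le _ ht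
      have p2 := L.pos hj
      rcases L.lac i hi j hj (by rintro rfl; exact lt_irrefl _ c) with k | k
      · nlinarith
      · exact k
    · simpa using D.b_nonneg i t'
  have hb' : 0 < D.b j t' := lt_of_lt_of_le (by positivity) h1
  have hq1 : 1 - 1 / q ≤ q - 1 := by
    have : 2 - q ≤ 1 / q := by rw [le_div_iff₀ hq0]; nlinarith [sq_nonneg (q - 1)]
    linarith
  have hn : 0 ≤ D.n j * (t' - t) := mul_nonneg (L.pos hj).le (sub_nonneg.2 ht)
  refine (mul_le_mul_of_nonneg_right hq1 hn).trans ?_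
  rw [Real.le_log_iff_exp_le (by positivity), le_div_iff₀ hε]
  rw [show q * D.n j * (t' - t) = (q - 1) * (D.n j * (t' - t)) + D.n j * (t' - t) by ring,
    Real.exp_add] at g
  have sh := D.b_shift j t t'
  set E := Real.exp (D.n j * (t' - t))
  set E' := Real.exp ((q - 1) * (D.n j * (t' - t)))
  have hE : 0 < E := Real.exp_pos _
  have hE' : 0 < E' := Real.exp_pos _
  have : E' * ε * D.b j t' ≤ 4 * D.b j t' := by
    calc E' * ε * D.b j t' = ε * (E' * E * D.b j t) := by rw [sh]; ring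
      _ ≤ ε * (E' * E * (4 * D.hi (D.n j) t)) := by gcongr
      _ = 4 * (ε * (E' * E * D.hi (D.n j) t)) := by ring
      _ ≤ 4 * (ε * D.S t') := by gcongr
      _ ≤ _ := by gcongr
  exact le_of_mul_le_mul_right this hb'

end Data

namespace Par

variable {p : Par} (o : p.Ok)
include o

theorem local_zeros {Y : ℝ} (hY : 0 ≤ Y) : ∃ (N : ℕ) (κ : ℝ), 0 < κ ∧
    ∀ D : Data, D.Lac p.q p.V → (∀ t, 0 < D.S t) → ∀ j ∈ D.J, ∀ E : Set ℝ,
      (∀ t ∈ E, p.ε * D.S t ≤ D.b j t ∧ D.S (t + p.a / D.n j) ≤ (1 + p.ζ) * D.S t) →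
      (∀ t ∈ E, ∀ t' ∈ E, D.n j * (t' - t) ≤ Y) → ∀ x : ℝ,
      ∃ Z : Finset ℝ, Z.card ≤ N ∧ ∀ δ : ℝ, 0 < δ → δ ≤ 1 → ∀ t ∈ E, ∀ θ : ℝ,
        D.n j * |θ - x| ≤ 2 * p.R ^ 2 → (∀ y ∈ Z, δ ≤ D.n j * |θ - y|) →
        κ * δ ^ N * D.S t ≤ ‖D.F t θ‖ := by
  classical
  have hε := o.ε_pos
  have hγ := o.γ_pos
  have hζ := o.ζ_pos
  have ha := o.a_pos
  have hR := o.R_pos
  obtain ⟨N, κ, hκ, H⟩ := cartan_half (a := p.a) (Y := Y) (A := 2 / (p.γ * p.ε) + 2 * p.R ^ 2)
    (b := p.ε / (2 * (1 + p.ζ))) ha hY (by positivity)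
  refine ⟨N, κ, hκ, fun D L hS j hj E h1 h2 x => ?_⟩
  rcases E.eq_empty_or_nonempty with rfl | ⟨t₀, ht₀⟩
  · exact ⟨∅, by simp, by simp⟩
  have hn := L.pos hj
  have bdd : BddAbove E := ⟨t₀ + Y / D.n j, fun t ht => by
    have := h2 t₀ ht₀ t ht
    have : t - t₀ ≤ Y / D.n j := by rw [le_div_iff₀ hn]; linarith
    linarith⟩
  obtain ⟨s, hs, hs'⟩ := exists_lt_of_lt_csSup ⟨t₀, ht₀⟩
    (show sSup E - p.a / 2 / D.n j < sSup E by
      have : 0 < p.a / 2 / D.n j := by positivity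
      linarith)
  have hSs := hS s
  set B := (1 + p.ζ) * D.S s with hB
  have hB0 : 0 < B := by positivity
  have hnc : (D.n j : ℂ) ≠ 0 := by exact_mod_cast hn.ne'
  set G : ℂ → ℂ := fun ξ => (∑ i ∈ D.J, D.c i * Complex.exp (D.n i * (s + x * Complex.I +
    ξ / D.n j))) / B with hG
  have nG : ∀ ξ : ℂ, ‖G ξ‖ = ‖D.F (s + ξ.re / D.n j) (x + ξ.im / D.n j)‖ / B := by
    intro ξ
    rw [hG]; simp only
    rw [D.F_eq, norm_div, Complex.norm_real, Real.norm_of_nonneg hB0.le]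
    simp
  have dG : Differentiable ℂ G := by
    refine Differentiable.div_const (Differentiable.fun_sum fun i _ => ?_) _
    fun_prop
  obtain ⟨σ, hσ1, hσ2⟩ := regen D.J D.n
    (fun i => D.c i * (Real.exp (D.n i * s) : ℝ) * ee (D.n i * x))
    (l := 2 / (p.γ * p.ε) / D.n j) (K := 2 / p.ε) (by positivity) (by positivity) hj
    (fun i hi ne => by
      have s := L.sep o.hq hi hj ne
      rw [abs_mul, abs_of_pos (by positivity : 0 < 2 / (p.γ * p.ε) / D.n j)]
      calc 2 / p.ε = p.γ * D.n j * (2 / (p.γ * p.ε) / D.n j) := by field_simp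
        _ ≤ _ := by gcongr; exact s)
  simp only [norm_mul _ (ee _), norm_ee, mul_one, D.norm_coef] at hσ2
  have e1 : ∑ i ∈ D.J, D.c i * (Real.exp (D.n i * s) : ℝ) * ee (D.n i * x) * ee (D.n i * σ) =
      D.F s (x + σ) := sum_congr rfl fun i _ => by rw [mul_add, ee_add]; ring
  rw [e1] at hσ2
  change D.b j s - D.S s / (2 / p.ε) ≤ _ at hσ2
  obtain ⟨Z, hZ, HZ⟩ := H G dG
    (fun ξ hξ => by
      rw [nG, div_le_one hB0]
      refine (D.norm_F_le _ _).trans (le_trans (L.S_mono ?_) (h1 s hs).2)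
      gcongr)
    ((D.n j * σ : ℝ) * Complex.I) (by simpa using hY) (by simp; positivity)
    (by
      simp only [Complex.mul_im, Complex.ofReal_re, Complex.I_im, mul_one, Complex.ofReal_im,
        Complex.I_re, mul_zero, add_zero]
      rw [abs_mul, abs_of_pos hn]
      rw [le_div_iff₀ hn] at hσ1
      have : 0 < p.R ^ 2 := by positivity
      linarith)
    (by
      rw [nG]
      simp only [Complex.mul_im, Complex.ofReal_re, Complex.I_im, mul_one, Complex.ofReal_im,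
        Complex.I_re, mul_zero, add_zero, Complex.mul_re, sub_zero, zero_div]
      rw [mul_div_cancel_left₀ _ hn.ne', le_div_iff₀ hB0]
      have a1 : D.S s / (2 / p.ε) = p.ε * D.S s / 2 := by field_simp
      have a2 : p.ε / (2 * (1 + p.ζ)) * B = p.ε * D.S s / 2 := by rw [hB]; field_simp
      linarith [(h1 s hs).1])
  refine ⟨Z.image fun y => x + y / D.n j, card_image_le.trans hZ,
    fun δ hδ hδ1 t ht θ k1 k2 => ?_⟩
  have tle : t - s ≤ p.a / 2 / D.n j := by linarith [le_csSup bdd ht]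
  have := HZ δ hδ hδ1 ⟨D.n j * (t - s), D.n j * (θ - x)⟩
    (by have := h2 t ht s hs; simp only; linarith)
    (by rw [le_div_iff₀ hn] at tle; simp only; linarith)
    (by
      simp only
      rw [abs_mul, abs_of_pos hn]
      have : 0 < 2 / (p.γ * p.ε) := by positivity
      linarith)
    (fun y hy => by
      have := k2 _ (mem_image_of_mem _ hy)
      simp only
      convert this using 1
      rw [← abs_of_pos hn, ← abs_mul, abs_of_pos hn]
      congr 1; field_simp; ring)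
  rw [nG] at this
  simp only [mul_div_cancel_left₀ _ hn.ne', add_sub_cancel] at this
  rw [le_div_iff₀ hB0] at this
  refine le_trans ?_ this
  gcongr
  refine le_trans (L.S_mono ?_) (h1 s hs).2
  have : p.a / 2 / D.n j ≤ p.a / D.n j := by gcongr; linarith
  linarith

end Par

theorem finite_main {q : ℝ} (hq : 1 < q) : ∃ U η : ℝ, 1 ≤ U ∧ 0 < η ∧ ∀ D : Data, D.Lac q U →
    ∃ θ ∈ Set.Icc (-2 : ℝ) 2, ∀ t, η * D.S t ≤ ‖D.F t θ‖ := by
  classical
  obtain ⟨p, rfl, o⟩ := exists_par hq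
  have hε := o.ε_pos
  have hγ := o.γ_pos
  have hζ := o.ζ_pos
  have hR := o.R_pos
  have hc := o.c₀_pos
  set Y := |Real.log (4 / p.ε)| / p.γ with hY
  have hY0 : 0 ≤ Y := by positivity
  obtain ⟨N, κ, hκ, H⟩ := Par.local_zeros o hY0
  obtain ⟨R₀, hR₀⟩ := pow_unbounded_of_one_lt (4 * ((p.k * 2 * (N + N) : ℕ) : ℝ))
    (by norm_num : (1 : ℝ) < 3 / 2)
  set δ := 1 / p.R ^ (2 * R₀ + 1) with hδ
  have hδ0 : 0 < δ := by positivity
  have hδ1 : δ ≤ 1 := by rw [hδ, div_le_one (by positivity)]; exact one_le_pow₀ o.one_le_R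
  refine ⟨p.V, min (p.c₀ / 16) (κ * δ ^ N), o.one_le_V, by positivity, fun D L => ?_⟩
  by_cases hS : ∀ t, 0 < D.S t
  swap
  · push Not at hS
    obtain ⟨t₀, ht₀⟩ := hS
    refine ⟨0, by simp, fun t => ?_⟩
    have : D.S t = 0 := sum_eq_zero fun j hj => by
      rw [D.b_shift j t₀ t, le_antisymm ((D.b_le_S hj t₀).trans ht₀) (D.b_nonneg j t₀), mul_zero]
    rw [this, mul_zero]; exact norm_nonneg _
  have hR2 : 1 < p.R ^ 2 := by nlinarith [o.hR]
  obtain ⟨M₁, hM₁⟩ : ∃ M₁, ∀ j ∈ D.J, D.n j < p.z M₁ := by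
    obtain ⟨M₁, h⟩ := pow_unbounded_of_one_lt (∑ j ∈ D.J, D.n j) hR2
    refine ⟨M₁, fun j hj => lt_of_le_of_lt
      (single_le_sum (f := D.n) (fun i hi => (L.pos hi).le) hj) ?_⟩
    rwa [Par.z, pow_mul]
  have hM : ∀ j ∈ D.J, D.n j < p.z (M₁ + R₀) := fun j hj =>
    (hM₁ j hj).trans_le (o.z_mono (by omega))
  obtain ⟨τ, Ref, r1, r2, r3, r4⟩ := schedule (p.Safe D) D.S (l := 1 + p.ζ) M₁ D.S_nonneg
    (by linarith) (fun t m t' m' s s' h => Par.safe_sep o L hS s s' h)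
    (fun t m s => Par.safe_lt o hS hM₁ s)
  let CA : ℕ → ℝ → Prop := fun j t =>
    p.ε * D.S t ≤ D.b j t ∧ D.S (t + p.a / D.n j) ≤ (1 + p.ζ) * D.S t
  have toY : ∀ x : ℝ, p.γ * x ≤ Real.log (4 / p.ε) → x ≤ Y := fun x hx => by
    rw [hY, le_div_iff₀ hγ]; linarith [le_abs_self (Real.log (4 / p.ε))]
  have neg : ∀ j ∈ D.J, ∀ t t' : ℝ, t' ≤ t → D.n j * (t' - t) ≤ Y := fun j hj t t' h => by
    have := L.pos hj
    nlinarith
  have zj : ∀ (j : ℕ) (x : ℝ), ∃ Z : Finset ℝ, Z.card ≤ N + N ∧ (j ∈ D.J → ∀ t, CA j t →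
      D.b j t ≤ 4 * D.hd (D.n j) t ∨ D.b j t ≤ 4 * D.hi (D.n j) t → ∀ θ : ℝ,
        D.n j * |θ - x| ≤ 2 * p.R ^ 2 → (∀ y ∈ Z, δ ≤ D.n j * |θ - y|) →
        κ * δ ^ N * D.S t ≤ ‖D.F t θ‖) := by
    intro j x
    by_cases hj : j ∈ D.J
    swap
    · exact ⟨∅, by simp, fun h => absurd h hj⟩
    obtain ⟨Z₁, c1, z1⟩ := H D L hS j hj {t | CA j t ∧ D.b j t ≤ 4 * D.hd (D.n j) t}
      (fun t ht => ht.1) (fun t ht t' ht' => by
        rcases le_total t t' with c | c
        · exact toY _ (L.diam_lo o.hq hε hj c (hS t) ht.1.1 ht'.2)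
        · exact neg j hj t t' c) x
    obtain ⟨Z₂, c2, z2⟩ := H D L hS j hj {t | CA j t ∧ D.b j t ≤ 4 * D.hi (D.n j) t}
      (fun t ht => ht.1) (fun t ht t' ht' => by
        rcases le_total t t' with c | c
        · exact toY _ (L.diam_hi o.hq hε hj c (hS t') ht'.1.1 ht.2)
        · exact neg j hj t t' c) x
    refine ⟨Z₁ ∪ Z₂, (card_union_le _ _).trans (add_le_add c1 c2), fun _ t h1 h2 θ h3 h4 => ?_⟩
    rcases h2 with h2 | h2
    · exact z1 δ hδ0 hδ1 t ⟨h1, h2⟩ θ h3 fun y hy => h4 y (mem_union_left _ hy)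
    · exact z2 δ hδ0 hδ1 t ⟨h1, h2⟩ θ h3 fun y hy => h4 y (mem_union_right _ hy)
  choose Zj cZ hZ using zj
  obtain ⟨x, hx0, hx1, hx2⟩ := avoid (p.hh D τ) (Par.hh_pos o)
    (fun m => by
      have := Par.hh_succ (D := D) (τ := τ) o m
      have := Par.hh_pos (D := D) (τ := τ) o (m + 1)
      nlinarith [o.hR])
    (fun m x => p.gg D τ m ≤ ‖p.AA D τ (M₁ + R₀) m (τ m) x‖) (M₁ + R₀)
    (Par.good_step o L hM)
    (fun m x => (D.J.filter fun j => p.z m ≤ D.n j ∧ D.n j < p.z m * p.q ^ (p.k * 2)).biUnion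
      fun j => Zj j x) (p.k * 2 * (N + N))
    (fun m x => (card_biUnion_le_card_mul _ _ _ fun j _ => cZ j x).trans
      (Nat.mul_le_mul_right _ (L.count o.hq _ _ (o.z_pos m)))) R₀ hR₀ 0 (by simp [Par.gg])
  set θ := x (M₁ + R₀) with hθ
  refine ⟨θ, ?_, fun t => ?_⟩
  · have h1 := (hx1 0 (Nat.zero_le _)).2
    have h2 := Par.hh_le (D := D) (τ := τ) o 0
    rw [hx0, sub_zero] at h1
    simp only [Par.z, mul_zero, pow_zero, div_one] at h2
    exact abs_le.1 (by linarith)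
  have hSt := hS t
  have m1 : min (p.c₀ / 16) (κ * δ ^ N) * D.S t ≤ p.c₀ / 16 * D.S t := by
    gcongr; exact min_le_left _ _
  have m2 : min (p.c₀ / 16) (κ * δ ^ N) * D.S t ≤ κ * δ ^ N * D.S t := by
    gcongr; exact min_le_right _ _
  rcases Par.dichotomy o L hS hM₁ t with ⟨t', m, s, s1, s2⟩ | ⟨j, hj, ca⟩
  · obtain ⟨b, hb, b1, b2⟩ := r4 t' m s
    have hbM : b ≤ M₁ + R₀ := by have := Par.safe_lt o hS hM₁ (r1 b hb); omega
    have k1 := Par.ref_bound o L hS r1 r2 r3 b hb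
    have k2 := Par.ref_point (τ := τ) o L hbM (r1 b hb) (hx1 b hbM).2
    have k3 := (hx1 b hbM).1
    have k4 := L.F_sub t (τ b) θ
    have k5 := norm_sub_norm_le (D.F (τ b) θ) (D.F t θ)
    have z1 := o.ζ_le
    have hSb := hS (τ b)
    have k6 : |D.S (τ b) - D.S t| ≤ 3 * p.ζ * D.S t := by
      rw [abs_le]
      constructor
      · have : (1 + p.ζ) * ((1 - 3 * p.ζ) * D.S t) ≤ (1 + p.ζ) * D.S (τ b) := by
          have : 0 < p.ζ * D.S t := by positivity
          have : 0 < p.ζ * p.ζ * D.S t := by positivity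
          nlinarith
        have := le_of_mul_le_mul_left this (by linarith)
        linarith
      · have : (1 + p.ζ) * D.S t' ≤ (1 + p.ζ) * ((1 + p.ζ) * D.S t) := by gcongr
        have : p.ζ * (p.ζ * D.S t) ≤ 1 * (p.ζ * D.S t) := by gcongr; linarith
        nlinarith
    have k7 : D.S t ≤ 2 * D.S (τ b) := by nlinarith
    have k8 : p.c₀ * D.S t ≤ p.c₀ * (2 * D.S (τ b)) := by gcongr
    have k9 : p.ζ = p.c₀ / 48 := rfl
    rw [k9] at k6
    linarith
  by_cases dom : D.b j t ≤ 4 * D.hd (D.n j) t ∨ D.b j t ≤ 4 * D.hi (D.n j) t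
  swap
  · push Not at dom
    have k1 := L.split o.hq hj t
    have k2 := D.le_norm_F hj t θ
    have k3 : p.c₀ / 16 * D.S t ≤ 1 / 3 * D.S t :=
      mul_le_mul_of_nonneg_right (by linarith [o.c₀_le]) hSt.le
    linarith [dom.1, dom.2]
  have hn := L.pos hj
  obtain ⟨m, l1, l2⟩ := exists_nat_pow_near (L.one_le.trans (L.le j hj)) hR2
  rw [← pow_mul] at l1
  rw [pow_succ, ← pow_mul] at l2
  change p.z m ≤ _ at l1
  change _ < p.z m * _ at l2
  have hz := o.z_pos m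
  have hm : m < M₁ := by
    by_contra c
    linarith [o.z_mono (not_lt.1 c), hM₁ j hj]
  refine m2.trans (hZ j (x m) hj t ca dom θ ?_ fun y hy => ?_)
  · calc _ ≤ p.z m * p.R ^ 2 * (2 * (1 / p.z m)) := by
          gcongr
          exact (hx1 m (by omega)).2.trans (by gcongr; exact Par.hh_le o m)
      _ = _ := by field_simp
  · have := hx2 m (by omega) y (mem_biUnion.2 ⟨j, mem_filter.2 ⟨hj, l1, by
      rw [pow_mul]; exact l2⟩, hy⟩)
    calc δ = p.z m * (1 / (p.R * p.z (m + R₀))) := by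
          rw [hδ]; unfold Par.z; field_simp; ring
      _ ≤ _ := mul_le_mul l1 ((Par.le_hh o _).trans this)
          (by have := o.z_pos (m + R₀); positivity) hn.le

end Pool.Agent.P.MP_bdd694_an
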