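import Mathlib

/-! Masses of a finite lacunary exponential sum. -/

open Finset

namespace Pool.Agent.P.MP_bdd694_an

structure Data where
  J : Finset ℕ
  n : ℕ → ℝ
  c : ℕ → ℂ

namespace Data

variable (D : Data)

noncomputable def b (j : ℕ) (t : ℝ) : ℝ := ‖D.c j‖ * Real.exp (D.n j * t)

noncomputable def S (t : ℝ) : ℝ := ∑ j ∈ D.J, D.b j t

noncomputable def hd (y t : ℝ) : ℝ := ∑ j ∈ D.J, if D.n j < y then D.b j t else 0

structure Lac (q U : ℝ) : Prop where
  one_le : 1 ≤ U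
  le : ∀ j ∈ D.J, U ≤ D.n j
  lac : ∀ i ∈ D.J, ∀ j ∈ D.J, i ≠ j → q * D.n i ≤ D.n j ∨ q * D.n j ≤ D.n i

lemma b_nonneg (j : ℕ) (t : ℝ) : 0 ≤ D.b j t := by unfold b; positivity

lemma b_shift (j : ℕ) (t t' : ℝ) : D.b j t' = Real.exp (D.n j * (t' - t)) * D.b j t := by
  unfold b
  rw [mul_left_comm, ← Real.exp_add]; congr 2; ring

lemma S_nonneg (t : ℝ) : 0 ≤ D.S t := sum_nonneg fun j _ => D.b_nonneg j t

lemma b_le_S {j : ℕ} (hj : j ∈ D.J) (t : ℝ) : D.b j t ≤ D.S t :=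
  single_le_sum (f := fun j => D.b j t) (fun j _ => D.b_nonneg j t) hj

lemma hd_nonneg (y t : ℝ) : 0 ≤ D.hd y t :=
  sum_nonneg fun j _ => by split_ifs; exacts [D.b_nonneg j t, le_rfl]

lemma hd_mono {y y' : ℝ} (h : y ≤ y') (t : ℝ) : D.hd y t ≤ D.hd y' t := by
  refine sum_le_sum fun j _ => ?_
  split_ifs with h1 h2 h2
  · exact le_rfl
  · exact absurd (h1.trans_le h) h2
  · exact D.b_nonneg j t
  · exact le_rfl

lemma hd_le_S (y t : ℝ) : D.hd y t ≤ D.S t :=
  sum_le_sum fun j _ => by split_ifs; exacts [le_rfl, D.b_nonneg j t]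

lemma hd_eq_zero {y : ℝ} (h : ∀ j ∈ D.J, y ≤ D.n j) (t : ℝ) : D.hd y t = 0 :=
  sum_eq_zero fun j hj => if_neg (not_lt.2 (h j hj))

lemma hd_eq_S {y : ℝ} (h : ∀ j ∈ D.J, D.n j < y) (t : ℝ) : D.hd y t = D.S t :=
  sum_congr rfl fun j hj => if_pos (h j hj)

lemma hd_sub {y y' : ℝ} (h : y ≤ y') (t : ℝ) :
    D.hd y' t - D.hd y t = ∑ j ∈ D.J, if y ≤ D.n j ∧ D.n j < y' then D.b j t else 0 := by
  unfold hd
  rw [← sum_sub_distrib]
  refine sum_congr rfl fun j _ => ?_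
  by_cases h1 : D.n j < y
  · simp [h1, h1.trans_le h, not_le.2 h1]
  · simp [h1, not_lt.1 h1]

lemma S_sub_hd (y t : ℝ) :
    D.S t - D.hd y t = ∑ j ∈ D.J, if y ≤ D.n j then D.b j t else 0 := by
  unfold hd S
  rw [← sum_sub_distrib]
  refine sum_congr rfl fun j _ => ?_
  by_cases h1 : D.n j < y
  · simp [h1, not_le.2 h1]
  · simp [h1, not_lt.1 h1]

lemma continuous_b (j : ℕ) : Continuous (D.b j) := by unfold b; fun_prop

lemma continuous_S : Continuous D.S := continuous_finsetSum _ fun j _ => D.continuous_b j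

lemma continuous_hd (y : ℝ) : Continuous (D.hd y) :=
  continuous_finsetSum _ fun j _ => by
    split_ifs; exacts [D.continuous_b j, continuous_const]

lemma b_le_of_le {j : ℕ} {y t t' : ℝ} (hy : D.n j ≤ y) (ht : t ≤ t') :
    D.b j t' ≤ Real.exp (y * (t' - t)) * D.b j t := by
  rw [D.b_shift j t t']
  have := D.b_nonneg j t
  have := sub_nonneg.2 ht
  gcongr

lemma le_b_of_le {j : ℕ} {y t t' : ℝ} (hy : y ≤ D.n j) (ht : t ≤ t') :
    Real.exp (y * (t' - t)) * D.b j t ≤ D.b j t' := by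
  rw [D.b_shift j t t']
  have := D.b_nonneg j t
  have := sub_nonneg.2 ht
  gcongr

lemma band_growth {y y' t t' : ℝ} (h : y ≤ y') (ht : t ≤ t') :
    D.hd y' t' - D.hd y t' ≤ Real.exp (y' * (t' - t)) * (D.hd y' t - D.hd y t) := by
  rw [D.hd_sub h, D.hd_sub h, mul_sum]
  refine sum_le_sum fun j _ => ?_
  split_ifs with c
  · exact D.b_le_of_le c.2.le ht
  · simp

lemma hd_growth {y t t' : ℝ} (ht : t ≤ t') :
    D.hd y t' ≤ Real.exp (y * (t' - t)) * D.hd y t := by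
  unfold hd
  rw [mul_sum]
  refine sum_le_sum fun j _ => ?_
  split_ifs with c
  · exact D.b_le_of_le c.le ht
  · simp

lemma tail_growth {y t t' : ℝ} (ht : t ≤ t') :
    Real.exp (y * (t' - t)) * (D.S t - D.hd y t) ≤ D.S t' - D.hd y t' := by
  rw [D.S_sub_hd, D.S_sub_hd, mul_sum]
  refine sum_le_sum fun j _ => ?_
  split_ifs with c
  · exact D.le_b_of_le c ht
  · simp

variable {D} {q U : ℝ}

lemma Lac.pos (L : D.Lac q U) {j : ℕ} (hj : j ∈ D.J) : 0 < D.n j := by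
  linarith [L.one_le, L.le j hj]

lemma Lac.b_mono (L : D.Lac q U) {j : ℕ} (hj : j ∈ D.J) {t t' : ℝ} (ht : t ≤ t') :
    D.b j t ≤ D.b j t' := by
  simpa using D.le_b_of_le (L.pos hj).le ht

lemma Lac.S_mono (L : D.Lac q U) {t t' : ℝ} (ht : t ≤ t') : D.S t ≤ D.S t' :=
  sum_le_sum fun _ hj => L.b_mono hj ht

lemma Lac.sum_abs_sub (L : D.Lac q U) (t t' : ℝ) :
    ∑ j ∈ D.J, |D.b j t' - D.b j t| = |D.S t' - D.S t| := by
  wlog h : t ≤ t' generalizing t t'
  · rw [abs_sub_comm, ← this t' t (le_of_not_ge h)]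
    exact sum_congr rfl fun j _ => abs_sub_comm _ _
  rw [abs_of_nonneg (sub_nonneg.2 (L.S_mono h)), S, S, ← sum_sub_distrib]
  exact sum_congr rfl fun j hj => abs_of_nonneg (sub_nonneg.2 (L.b_mono hj h))

lemma Lac.sep (L : D.Lac q U) (hq : 1 < q) {i j : ℕ} (hi : i ∈ D.J) (hj : j ∈ D.J) (h : i ≠ j) :
    (1 - 1 / q) * D.n j ≤ |D.n i - D.n j| := by
  have p1 := L.pos hi
  have p2 := L.pos hj
  have hq0 : 0 < q := by linarith
  rcases L.lac i hi j hj h with k | k
  · have : D.n i ≤ 1 / q * D.n j := by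
      rw [one_div, ← div_eq_inv_mul, le_div_iff₀ hq0]; linarith
    rw [abs_sub_comm]
    exact le_trans (by linarith) (le_abs_self _)
  · have : 1 - 1 / q ≤ q - 1 := by
      have : 2 - q ≤ 1 / q := by rw [le_div_iff₀ hq0]; nlinarith [sq_nonneg (q - 1)]
      linarith
    exact le_trans (by nlinarith) (le_abs_self _)

lemma Lac.count (L : D.Lac q U) (hq : 1 < q) (T : ℕ) :
    ∀ y : ℝ, 0 < y → (D.J.filter fun j => y ≤ D.n j ∧ D.n j < y * q ^ T).card ≤ T := by
  induction T with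
  | zero =>
    intro y _
    rw [Nat.le_zero, card_eq_zero, filter_eq_empty_iff]
    intro j _ h
    simp at h; linarith
  | succ T ih =>
    intro y hy
    have h1 : (D.J.filter fun j => y * q ^ T ≤ D.n j ∧ D.n j < y * q ^ (T + 1)).card ≤ 1 := by
      rw [card_le_one]
      intro i hi j hj
      rw [mem_filter] at hi hj
      by_contra ne
      have hp : 0 < y * q ^ T := by positivity
      rcases L.lac i hi.1 j hj.1 ne with k | k
      · have := hj.2.2; rw [pow_succ] at this; nlinarith [hi.2.1]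
      · have := hi.2.2; rw [pow_succ] at this; nlinarith [hj.2.1]
    refine le_trans (card_le_card (t := (D.J.filter fun j => y ≤ D.n j ∧ D.n j < y * q ^ T) ∪
      D.J.filter fun j => y * q ^ T ≤ D.n j ∧ D.n j < y * q ^ (T + 1)) fun j hj => ?_)
      ((card_union_le _ _).trans (add_le_add (ih y hy) h1))
    rw [mem_filter] at hj
    rw [mem_union, mem_filter, mem_filter]
    by_cases c : D.n j < y * q ^ T
    · exact Or.inl ⟨hj.1, hj.2.1, c⟩
    · exact Or.inr ⟨hj.1, not_lt.1 c, hj.2.2⟩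

lemma Lac.band_le (L : D.Lac q U) (hq : 1 < q) {T : ℕ} {y y' t B : ℝ} (hy : 0 < y) (hyy : y ≤ y')
    (hy' : y' ≤ y * q ^ T) (hB : 0 ≤ B) (h : ∀ j ∈ D.J, y ≤ D.n j → D.n j < y' → D.b j t ≤ B) :
    D.hd y' t - D.hd y t ≤ T * B := by
  rw [D.hd_sub hyy, ← sum_filter]
  calc _ ≤ ∑ _j ∈ D.J.filter fun j => y ≤ D.n j ∧ D.n j < y', B :=
        sum_le_sum fun j hj => by rw [mem_filter] at hj; exact h j hj.1 hj.2.1 hj.2.2
    _ = (D.J.filter fun j => y ≤ D.n j ∧ D.n j < y').card * B := by simp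
    _ ≤ T * B := by
        gcongr
        refine le_trans (card_le_card fun j hj => ?_) (L.count hq T y hy)
        rw [mem_filter] at hj ⊢
        exact ⟨hj.1, hj.2.1, hj.2.2.trans_le hy'⟩

lemma Lac.band_max (L : D.Lac q U) (hq : 1 < q) {T : ℕ} {y y' : ℝ} (t : ℝ) (hy : 0 < y)
    (hyy : y ≤ y') (hy' : y' ≤ y * q ^ T) :
    D.hd y' t - D.hd y t ≤ 0 ∨
      ∃ j ∈ D.J, y ≤ D.n j ∧ D.n j < y' ∧ D.hd y' t - D.hd y t ≤ T * D.b j t := by
  by_cases ne : (D.J.filter fun j => y ≤ D.n j ∧ D.n j < y').Nonempty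
  · right
    obtain ⟨j, hj, hmax⟩ := exists_max_image _ (fun j => D.b j t) ne
    rw [mem_filter] at hj
    exact ⟨j, hj.1, hj.2.1, hj.2.2, L.band_le hq hy hyy hy' (D.b_nonneg j t)
      fun i hi h1 h2 => hmax i (mem_filter.2 ⟨hi, h1, h2⟩)⟩
  · left
    have := L.band_le hq (t := t) hy hyy hy' le_rfl
      fun i hi h1 h2 => absurd ⟨i, mem_filter.2 ⟨hi, h1, h2⟩⟩ ne
    simpa using this

end Data

/-- potential for summing the error weights over the levels -/
noncomputable def psi (ε x : ℝ) : ℝ :=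
  2 * min x ε + 2 * ε * (1 - min 1 (1 / x)) +
    ε * ((if ε < x then 1 else 0) + (if 1 ≤ x then 1 else 0))

lemma psi_nonneg {ε x : ℝ} (hε : 0 < ε) (hx : 0 < x) : 0 ≤ psi ε x := by
  unfold psi
  have : 0 ≤ min x ε := le_min hx.le hε.le
  have : 0 ≤ 1 - min 1 (1 / x) := by linarith [min_le_left 1 (1 / x)]
  positivity

lemma psi_le {ε x : ℝ} (hε : 0 < ε) (hx : 0 < x) : psi ε x ≤ 6 * ε := by
  unfold psi
  have := min_le_right x ε
  have : 0 ≤ min 1 (1 / x) := le_min zero_le_one (by positivity)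
  split_ifs <;> nlinarith

lemma psi_step {ε R x x' : ℝ} (hR : 2 ≤ R) (hε : 1 / R ≤ ε) (hx' : 0 < x') (h : R * x' ≤ x) :
    min x ε * min 1 (1 / x') ≤ psi ε x - psi ε x' := by
  have hR0 : 0 < R := by linarith
  have hε0 : 0 < ε := lt_of_lt_of_le (by positivity) hε
  have h2 : 2 * x' ≤ x := by nlinarith
  have hx : 0 < x := by linarith
  have m1 : min x' ε ≤ min x ε := min_le_min_right _ (by linarith)
  have m2 : min 1 (1 / x) ≤ min 1 (1 / x') :=
    min_le_min_left _ (one_div_le_one_div_of_le hx' (by linarith))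
  have m3 : (if ε < x' then (1 : ℝ) else 0) ≤ if ε < x then 1 else 0 := by
    split_ifs <;> linarith
  have m4 : (if 1 ≤ x' then (1 : ℝ) else 0) ≤ if 1 ≤ x then 1 else 0 := by
    split_ifs <;> linarith
  have p1 : 0 ≤ min x ε := le_min hx.le hε0.le
  have p2 : 0 ≤ min 1 (1 / x') := le_min zero_le_one (by positivity)
  have p3 := min_le_left 1 (1 / x')
  have p4 := min_le_right x ε
  unfold psi
  by_cases c1 : x ≤ ε
  · rw [min_eq_left c1, min_eq_left (by linarith : x' ≤ ε)]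
    nlinarith
  by_cases c2 : 1 ≤ x'
  · have e1 : 1 / x' ≤ 1 := by rw [div_le_one hx']; exact c2
    have e2 : 2 * (1 / x) ≤ 1 / x' := by
      rw [mul_one_div, div_le_div_iff₀ hx hx']; linarith
    have e3 : 0 < 1 / x := by positivity
    rw [min_eq_right e1, min_eq_right (by linarith : 1 / x ≤ 1), min_eq_right (by linarith : ε ≤ x)]
    rw [min_eq_right (by linarith : ε ≤ x)] at m1
    nlinarith
  have k : min x ε * min 1 (1 / x') ≤ ε := by nlinarith
  by_cases c3 : 1 ≤ x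
  · rw [if_pos c3, if_neg c2]
    nlinarith
  · have : x' ≤ ε := by
      refine le_trans ?_ hε
      rw [le_div_iff₀ hR0]; linarith
    rw [if_pos (not_le.1 c1), if_neg (not_lt.2 this)]
    nlinarith

lemma sum_weight_le {ε R : ℝ} (hR : 2 ≤ R) (hε : 1 / R ≤ ε) (x : ℕ → ℝ) (hx : ∀ m, 0 < x m)
    (h : ∀ m, R * x (m + 1) ≤ x m) (a b : ℕ) :
    ∑ m ∈ Ico a b, min (x m) ε * min 1 (1 / x (m + 1)) ≤ 6 * ε := by
  have hε0 : 0 < ε := lt_of_lt_of_le (by positivity) hε
  rcases le_total b a with c | c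
  · rw [Ico_eq_empty (by omega)]; simp; exact hε0.le
  have : ∑ m ∈ Ico a b, min (x m) ε * min 1 (1 / x (m + 1)) ≤ psi ε (x a) - psi ε (x b) := by
    induction b, c using Nat.le_induction with
    | base => simp
    | succ b hb ih =>
      rw [sum_Ico_succ_top hb]
      linarith [psi_step hR hε (hx (b + 1)) (h b)]
  linarith [psi_le hε0 (hx a), psi_nonneg hε0 (hx b)]

/-- a maximal family of safe points with well separated sizes, arranged by level -/
theorem schedule (Safe : ℝ → ℕ → Prop) (S : ℝ → ℝ) {l : ℝ} (M : ℕ) (hS : ∀ t, 0 ≤ S t) (hl : 1 ≤ l)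
    (hsep : ∀ t m t' m', Safe t m → Safe t' m' → l * S t ≤ S t' → m < m')
    (hbd : ∀ t m, Safe t m → m < M) :
    ∃ (τ : ℕ → ℝ) (Ref : ℕ → Prop), (∀ b, Ref b → Safe (τ b) b) ∧
      (∀ m, ¬ Ref m → τ (m + 1) = τ m) ∧
      (∀ a b, Ref a → Ref b → a < b → l * S (τ a) ≤ S (τ b)) ∧
      ∀ t m, Safe t m → ∃ b, Ref b ∧ S (τ b) ≤ l * S t ∧ S t ≤ l * S (τ b) := by
  classical
  let Ok : Finset (ℝ × ℕ) → Prop := fun F => (∀ p ∈ F, Safe p.1 p.2) ∧
    ∀ p ∈ F, ∀ p' ∈ F, p ≠ p' → l * S p.1 ≤ S p'.1 ∨ l * S p'.1 ≤ S p.1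
  have inj : ∀ F, Ok F → ∀ p ∈ F, ∀ p' ∈ F, p.2 = p'.2 → p = p' := by
    intro F hF p hp p' hp' e
    by_contra ne
    rcases hF.2 p hp p' hp' ne with k | k
    · have := hsep _ _ _ _ (hF.1 p hp) (hF.1 p' hp') k; omega
    · have := hsep _ _ _ _ (hF.1 p' hp') (hF.1 p hp) k; omega
  have bd : ∀ F, Ok F → F.card ≤ M := by
    intro F hF
    rw [← card_range M]
    exact card_le_card_of_injOn Prod.snd (fun p hp => by simpa using hbd _ _ (hF.1 p hp))
      fun p hp p' hp' e => inj F hF p hp p' hp' e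
  obtain ⟨F, hF, hmax⟩ : ∃ F, Ok F ∧ ∀ F', Ok F' → F'.card ≤ F.card := by
    let Q : ℕ → Prop := fun n => ∃ F, Ok F ∧ F.card = n
    have h0 : Q 0 := ⟨∅, by simp [Ok], rfl⟩
    obtain ⟨F, hF, e⟩ : Q (Nat.findGreatest Q M) := Nat.findGreatest_spec (Nat.zero_le M) h0
    exact ⟨F, hF, fun F' hF' => e ▸ Nat.le_findGreatest (bd F' hF') ⟨F', hF', rfl⟩⟩
  let T : Finset (ℝ × ℕ) → ℝ := fun G =>
    if h : G.Nonempty then (exists_min_image G Prod.snd h).choose.1 else 0
  have hT : ∀ b, (∃ t, (t, b) ∈ F) → (T (F.filter fun p => b ≤ p.2), b) ∈ F := by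
    rintro b ⟨t, ht⟩
    have ne : (F.filter fun p => b ≤ p.2).Nonempty := ⟨(t, b), mem_filter.2 ⟨ht, le_rfl⟩⟩
    obtain ⟨h1, h2⟩ := (exists_min_image _ Prod.snd ne).choose_spec
    have h3 := h2 (t, b) (mem_filter.2 ⟨ht, le_rfl⟩)
    rw [mem_filter] at h1
    simp only [T, dif_pos ne]
    convert h1.1 using 1
    exact Prod.ext rfl (le_antisymm h1.2 h3)
  refine ⟨fun m => T (F.filter fun p => m ≤ p.2), fun b => ∃ t, (t, b) ∈ F,
    fun b hb => hF.1 _ (hT b hb), fun m hm => ?_, fun a b ha hb hab => ?_, fun t m ht => ?_⟩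
  · simp only
    congr 1
    refine filter_congr fun p hp => ⟨fun h => by omega, fun h => ?_⟩
    by_contra k
    exact hm ⟨p.1, by rw [show m = p.2 by omega]; exact hp⟩
  · rcases hF.2 _ (hT a ha) _ (hT b hb) (fun e => by simp at e; omega) with k | k
    · exact k
    · have := hsep _ _ _ _ (hF.1 _ (hT b hb)) (hF.1 _ (hT a ha)) k
      simp at this; omega
  · have key : ∃ p ∈ F, S p.1 ≤ l * S t ∧ S t ≤ l * S p.1 := by
      by_cases mem : (t, m) ∈ F
      · exact ⟨_, mem, by nlinarith [hS t], by nlinarith [hS t]⟩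
      by_contra no
      push Not at no
      have : Ok (insert (t, m) F) := by
        refine ⟨fun p hp => ?_, fun p hp p' hp' ne => ?_⟩
        · rcases mem_insert.1 hp with rfl | hp
          exacts [ht, hF.1 p hp]
        have aux : ∀ p ∈ F, l * S t ≤ S p.1 ∨ l * S p.1 ≤ S t := by
          intro p hp
          by_cases c : S p.1 ≤ l * S t
          · exact Or.inr (no p hp c).le
          · exact Or.inl (not_le.1 c).le
        rcases mem_insert.1 hp with rfl | hp <;> rcases mem_insert.1 hp' with rfl | hp'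
        · exact absurd rfl ne
        · exact aux _ hp'
        · exact (aux _ hp).symm
        · exact hF.2 p hp p' hp' ne
      have := hmax _ this
      rw [card_insert_of_notMem mem] at this
      omega
    obtain ⟨p, hp, k⟩ := key
    have h1 := hT p.2 ⟨p.1, hp⟩
    have e := inj F hF _ h1 p hp rfl
    refine ⟨p.2, ⟨p.1, hp⟩, ?_⟩
    have e1 : T (F.filter fun p' => p.2 ≤ p'.2) = p.1 := congrArg Prod.fst e
    simp only [e1]
    exact k

end Pool.Agent.P.MP_bdd694_an
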