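import Pool.Agent.P.MP_bdd694_an.Main

/-! Passage from finite sums to a Hadamard gap series. -/

open Finset Filter Topology

namespace Pool.Agent.P.MP_bdd694_an

variable {a : ℕ → ℂ} {lam : ℕ → ℕ} {f : ℂ → ℂ}

lemma summable_norm (hmono : StrictMono lam)
    (hf : ∀ z : ℂ, ‖z‖ < 1 → Tendsto (fun N => ∑ n ∈ range N, a n * z ^ lam n) atTop (𝓝 (f z)))
    {r : ℝ} (h0 : 0 ≤ r) (h1 : r < 1) : Summable fun n => ‖a n‖ * r ^ lam n := by
  set s := (r + 1) / 2 with hs
  have hs0 : 0 < s := by linarith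
  have h := hf s (by rw [Complex.norm_real, Real.norm_of_nonneg hs0.le]; linarith)
  have h2 : Tendsto (fun n => a n * (s : ℂ) ^ lam n) atTop (𝓝 0) := by
    have := ((tendsto_add_atTop_iff_nat 1).2 h).sub h
    simpa [sum_range_succ] using this
  obtain ⟨M, hM⟩ := h2.norm.bddAbove_range
  have hM' : ∀ n, ‖a n‖ * s ^ lam n ≤ M := fun n => by
    have := hM (Set.mem_range_self n)
    rwa [norm_mul, norm_pow, Complex.norm_real, Real.norm_of_nonneg hs0.le] at this
  have hM0 : 0 ≤ M := le_trans (by positivity) (hM' 0)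
  have hq0 : 0 ≤ r / s := by positivity
  have hq1 : r / s < 1 := by rw [div_lt_one hs0]; linarith
  refine Summable.of_nonneg_of_le (fun n => by positivity) (fun n => ?_)
    ((summable_geometric_of_lt_one hq0 hq1).mul_left M)
  calc ‖a n‖ * r ^ lam n = ‖a n‖ * s ^ lam n * (r / s) ^ lam n := by
        rw [div_pow r s]; field_simp
    _ ≤ M * (r / s) ^ lam n := by gcongr; exact hM' n
    _ ≤ M * (r / s) ^ n := by
        gcongr M * ?_
        exact pow_le_pow_of_le_one hq0 hq1.le (hmono.id_le n)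

lemma eq_tsum (hmono : StrictMono lam)
    (hf : ∀ z : ℂ, ‖z‖ < 1 → Tendsto (fun N => ∑ n ∈ range N, a n * z ^ lam n) atTop (𝓝 (f z)))
    {z : ℂ} (hz : ‖z‖ < 1) : HasSum (fun n => a n * z ^ lam n) (f z) := by
  have s : Summable fun n => a n * z ^ lam n :=
    Summable.of_norm (by simpa using summable_norm hmono hf (norm_nonneg z) hz)
  have := tendsto_nhds_unique s.hasSum.tendsto_sum_nat (hf z hz)
  exact this ▸ s.hasSum

theorem radial_lower (hmono : StrictMono lam) {q : ℝ} (hq : 1 < q)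
    (hgap : ∀ n, 1 ≤ lam n → q ≤ (lam (n + 1) : ℝ) / lam n)
    (hf : ∀ z : ℂ, ‖z‖ < 1 → Tendsto (fun N => ∑ n ∈ range N, a n * z ^ lam n) atTop (𝓝 (f z))) :
    ∃ (η C θ : ℝ) (k : ℕ), 0 < η ∧ ∀ r : ℝ, 0 < r → r < 1 → ∀ K : ℕ,
      η * ∑ j ∈ Ico k K, ‖a j‖ * r ^ lam j ≤ ‖f (r * Complex.exp (θ * Complex.I))‖ + C := by
  obtain ⟨U, η, hU, hη, H⟩ := finite_main hq
  obtain ⟨k, hk⟩ := exists_nat_ge U
  have hkU : ∀ j, k ≤ j → U ≤ (lam j : ℝ) := fun j hj =>
    hk.trans (by exact_mod_cast hj.trans (hmono.id_le j))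
  have lac : ∀ i j, k ≤ i → i < j → q * (lam i : ℝ) ≤ lam j := by
    intro i j hi hij
    have h1 : (1 : ℝ) ≤ lam i := hU.trans (hkU i hi)
    have := hgap i (by exact_mod_cast h1)
    rw [le_div_iff₀ (by linarith)] at this
    exact this.trans (by exact_mod_cast hmono.monotone hij)
  have L : ∀ N, (⟨Ico k N, fun j => lam j, a⟩ : Data).Lac q U := fun N =>
    ⟨hU, fun j hj => hkU j (mem_Ico.1 hj).1, fun i hi j hj ne => by
      rcases lt_or_gt_of_ne ne with c | c
      · exact Or.inl (lac i j (mem_Ico.1 hi).1 c)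
      · exact Or.inr (lac j i (mem_Ico.1 hj).1 c)⟩
  choose θ hθ hb using fun N => H _ (L N)
  obtain ⟨θ₀, -, φ, hφ, hlim⟩ := isCompact_Icc.tendsto_subseq hθ
  refine ⟨η, ∑ j ∈ range k, ‖a j‖, θ₀, k, hη, fun r h0 h1 K => ?_⟩
  have ex : ∀ j, Real.exp ((lam j : ℝ) * Real.log r) = r ^ lam j := fun j => by
    rw [Real.exp_nat_mul, Real.exp_log h0]
  have hb' : ∀ N, η * ∑ j ∈ Ico k N, ‖a j‖ * r ^ lam j ≤
      ‖∑ j ∈ Ico k N, a j * (r * Complex.exp (θ N * Complex.I)) ^ lam j‖ := by
    intro N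
    have := hb N (Real.log r)
    simp only [Data.S, Data.b, Data.F, ex] at this
    convert this using 3 with j
    rw [mul_pow, ee, ← Complex.exp_nat_mul]; push_cast; ring_nf
  have nz : ∀ x : ℝ, ‖(r : ℂ) * Complex.exp (x * Complex.I)‖ = r := fun x => by
    rw [norm_mul, Complex.norm_exp_ofReal_mul_I, mul_one, Complex.norm_real,
      Real.norm_of_nonneg h0.le]
  set z : ℂ := r * Complex.exp (θ₀ * Complex.I) with hz
  have sm := summable_norm hmono hf h0.le h1
  have lim : Tendsto (fun n => ∑' j, if j ∈ Ico k (φ n) then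
      a j * (r * Complex.exp (θ (φ n) * Complex.I)) ^ lam j else 0) atTop
      (𝓝 (∑' j, if k ≤ j then a j * z ^ lam j else 0)) := by
    refine tendsto_tsum_of_dominated_convergence sm (fun j => ?_) (Eventually.of_forall fun n j => ?_)
    · by_cases c : k ≤ j
      · rw [if_pos c]
        have ct : Continuous fun x : ℝ => a j * (r * Complex.exp (x * Complex.I)) ^ lam j := by
          fun_prop
        refine ((ct.tendsto θ₀).comp hlim).congr' ?_
        filter_upwards [hφ.tendsto_atTop.eventually_gt_atTop j] with n hn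
        simp [c, hn]
      · simp [c]
    · split_ifs
      · rw [norm_mul, norm_pow, nz]
      · simp only [norm_zero]; positivity
  have e1 : ∀ n, (∑' j, if j ∈ Ico k (φ n) then
      a j * (r * Complex.exp (θ (φ n) * Complex.I)) ^ lam j else 0) =
      ∑ j ∈ Ico k (φ n), a j * (r * Complex.exp (θ (φ n) * Complex.I)) ^ lam j := by
    intro n
    rw [tsum_eq_sum (s := Ico k (φ n)) fun j hj => if_neg hj]
    exact sum_congr rfl fun j hj => if_pos hj
  simp only [e1] at lim
  have hs := eq_tsum hmono hf (z := z) (by rw [hz, nz]; exact h1)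
  have e2 : (∑' j, if k ≤ j then a j * z ^ lam j else 0) =
      f z - ∑ j ∈ range k, a j * z ^ lam j := by
    have h2 : HasSum (fun j => if j ∈ range k then a j * z ^ lam j else 0)
        (∑ j ∈ range k, a j * z ^ lam j) := by
      have := hasSum_sum_of_ne_finset_zero (s := range k) (L := SummationFilter.unconditional ℕ)
        (f := fun j => if j ∈ range k then a j * z ^ lam j else 0) fun j hj => if_neg hj
      rwa [sum_congr rfl fun j hj => if_pos hj] at this
    rw [← (hs.sub h2).tsum_eq]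
    congr 1; funext j
    by_cases c : k ≤ j <;> simp [c, not_lt.2, lt_of_not_ge]
  have le : η * ∑ j ∈ Ico k K, ‖a j‖ * r ^ lam j ≤ ‖f z - ∑ j ∈ range k, a j * z ^ lam j‖ := by
    rw [← e2]
    refine ge_of_tendsto lim.norm ?_
    filter_upwards [hφ.tendsto_atTop.eventually_ge_atTop K] with n hn
    refine le_trans ?_ (hb' (φ n))
    gcongr
  refine le.trans ((norm_sub_le _ _).trans ?_)
  gcongr
  refine (norm_sum_le _ _).trans (sum_le_sum fun j _ => ?_)
  rw [norm_mul, norm_pow, hz, nz]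
  exact mul_le_of_le_one_right (norm_nonneg _) (pow_le_one₀ h0.le h1.le)

end Pool.Agent.P.MP_bdd694_an
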