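import Mathlib

/-! Averages of exponential sums over short intervals: the steering step and regeneration. -/

open Complex Finset MeasureTheory

namespace Pool.Agent.P.MP_bdd694_an

noncomputable def ee (x : ℝ) : ℂ := Complex.exp (x * I)

lemma ee_add (x y : ℝ) : ee (x + y) = ee x * ee y := by
  simp [ee, add_mul, Complex.exp_add]

@[simp] lemma norm_ee (x : ℝ) : ‖ee x‖ = 1 := Complex.norm_exp_ofReal_mul_I x

@[simp] lemma ee_zero : ee 0 = 1 := by simp [ee]

lemma norm_ee_sub_one (x : ℝ) : ‖ee x - 1‖ ≤ |x| := by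
  have := Real.norm_exp_I_mul_ofReal_sub_one_le (x := x)
  rwa [mul_comm] at this

lemma conj_ee (x : ℝ) : (starRingEnd ℂ) (ee x) = ee (-x) := by
  simp [ee, ← Complex.exp_conj]

@[fun_prop] lemma continuous_ee : Continuous ee := by unfold ee; fun_prop

lemma integral_ee (ν h : ℝ) :
    ∫ τ in (-h)..h, ee (ν * τ) = ((2 * h * Real.sinc (ν * h) : ℝ) : ℂ) := by
  by_cases hν : ν = 0
  · subst hν; simp; ring
  by_cases hh : h = 0
  · subst hh; simp
  have hc : (ν : ℂ) * I ≠ 0 := mul_ne_zero (by exact_mod_cast hν) I_ne_zero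
  have := integral_exp_mul_complex (a := -h) (b := h) hc
  have e : ∀ τ : ℝ, ee (ν * τ) = Complex.exp (ν * I * τ) := by
    intro τ; simp only [ee]; congr 1; push_cast; ring
  simp only [e, this]
  rw [Real.sinc_of_ne_zero (mul_ne_zero hν hh)]
  push_cast
  rw [Complex.sin]
  have h1 : (ν : ℂ) ≠ 0 := by exact_mod_cast hν
  have h2 : (h : ℂ) ≠ 0 := by exact_mod_cast hh
  have e1 : Complex.exp (ν * I * h) = Complex.exp (ν * h * I) := by congr 1; ring
  have e2 : Complex.exp (ν * I * -h) = Complex.exp (-(ν * h) * I) := by congr 1; ring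
  rw [e1, e2]
  field_simp
  rw [I_sq]; ring

lemma abs_sinc_le {x K : ℝ} (hK : 0 < K) (hx : K ≤ |x|) : |Real.sinc x| ≤ 1 / K := by
  have hx0 : x ≠ 0 := by rintro rfl; simp at hx; linarith
  rw [Real.sinc_of_ne_zero hx0, abs_div]
  gcongr
  exact Real.abs_sin_le_one x

lemma one_sub_sinc_le {x : ℝ} (hx : 0 ≤ x) : 1 - Real.sinc x ≤ x ^ 2 / 6 := by
  rcases hx.eq_or_lt with rfl | hx
  · simp
  rw [Real.sinc_of_ne_zero hx.ne']
  have := Real.sin_gt_sub_cube hx
  have : 1 - x ^ 2 / 6 ≤ Real.sin x / x := by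
    rw [le_div_iff₀ hx]; nlinarith
  linarith

lemma abs_one_sub_sinc_le {x : ℝ} (hx : 0 ≤ x) : |1 - Real.sinc x| ≤ x := by
  rw [abs_of_nonneg (by linarith [Real.sinc_le_one x])]
  by_cases c : x ≤ 2
  · have := one_sub_sinc_le hx; nlinarith
  · linarith [Real.neg_one_le_sinc x]

lemma norm_ee_sub_sinc {ν h τ : ℝ} (hν : 0 ≤ ν) (hτ : |τ| ≤ h) :
    ‖ee (ν * τ) - (Real.sinc (ν * h) : ℝ)‖ ≤ 2 * min (ν * h) 1 := by
  have hh : 0 ≤ h := (abs_nonneg _).trans hτ
  rw [mul_min_of_nonneg _ _ (by norm_num : (0 : ℝ) ≤ 2), le_min_iff]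
  constructor
  · calc _ = ‖(ee (ν * τ) - 1) + ((1 - Real.sinc (ν * h) : ℝ) : ℂ)‖ := by push_cast; ring_nf
      _ ≤ ‖ee (ν * τ) - 1‖ + ‖((1 - Real.sinc (ν * h) : ℝ) : ℂ)‖ := norm_add_le _ _
      _ ≤ ν * h + ν * h := by
        gcongr
        · refine (norm_ee_sub_one _).trans ?_
          rw [abs_mul, abs_of_nonneg hν]; gcongr
        · rw [Complex.norm_real]; exact abs_one_sub_sinc_le (by positivity)
      _ = _ := by ring
  · refine (norm_sub_le _ _).trans ?_
    rw [norm_ee, Complex.norm_real]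
    linarith [Real.abs_sinc_le_one (ν * h), Real.norm_eq_abs (Real.sinc (ν * h))]

lemma two_points {u W : ℝ → ℝ} (hu : Continuous u) (hW : Continuous W) {h d R β G : ℝ}
    (hh : 0 < h) (hR : 3 ≤ R) (hd0 : 0 ≤ d) (hd : d ≤ 6 * h / R) (hβ : ∀ τ, |τ| ≤ h → |u τ| ≤ β)
    (hW0 : ∀ τ, 0 ≤ W τ) (hW2 : ∀ τ, W τ ≤ 2)
    (hI : |(∫ τ in (-h)..h, W τ) - 2 * h| ≤ 2 * h / R)
    (hG : 2 * h * G ≤ ∫ τ in (-h)..h, u τ * W τ) :
    ∃ τ₁ τ₂, |τ₁| ≤ h ∧ |τ₂| ≤ h ∧ d ≤ |τ₁ - τ₂| ∧ G - 26 * β / R ≤ u τ₁ ∧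
      G - 26 * β / R ≤ u τ₂ := by
  have hR0 : 0 < R := by linarith
  have hβ0 : 0 ≤ β := (abs_nonneg _).trans (hβ 0 (by simpa using hh.le))
  have hle : -h ≤ h := by linarith
  have mem : ∀ τ ∈ Set.Icc (-h) h, |τ| ≤ h := fun τ hτ => abs_le.2 hτ
  set L := G - 26 * β / R with hL
  set r := 1 / R with hr
  have hr0 : 0 < r := by positivity
  have hr3 : r ≤ 1 / 3 := by rw [hr]; gcongr
  have e1 : 26 * β / R = 26 * β * r := by rw [hr]; ring
  have e2 : 2 * h / R = 2 * h * r := by rw [hr]; ring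
  have e3 : 6 * h / R = 6 * h * r := by rw [hr]; ring
  rw [e2] at hI
  rw [e3] at hd
  obtain ⟨hI1, hI2⟩ := abs_le.1 hI
  by_cases c : L ≤ -β
  · refine ⟨h, -h, by rw [abs_of_pos hh], by rw [abs_neg, abs_of_pos hh], ?_, ?_, ?_⟩
    · rw [sub_neg_eq_add, abs_of_pos (by linarith)]; nlinarith
    · linarith [(abs_le.1 (hβ h (by rw [abs_of_pos hh]))).1]
    · linarith [(abs_le.1 (hβ (-h) (by rw [abs_neg, abs_of_pos hh]))).1]
  push Not at c
  have iW : IntervalIntegrable W volume (-h) h := hW.intervalIntegrable _ _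
  have iuW : IntervalIntegrable (fun τ => u τ * W τ) volume (-h) h :=
    (hu.mul hW).intervalIntegrable _ _
  have hGβ : 2 * h * G ≤ β * (2 * h + 2 * h * r) := by
    refine hG.trans ?_
    calc _ ≤ ∫ τ in (-h)..h, β * W τ := by
          refine intervalIntegral.integral_mono_on hle iuW (iW.const_mul β) fun τ hτ => ?_
          exact mul_le_mul_of_nonneg_right (abs_le.1 (hβ τ (mem τ hτ))).2 (hW0 τ)
      _ = β * ∫ τ in (-h)..h, W τ := intervalIntegral.integral_const_mul _ _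
      _ ≤ _ := by gcongr; linarith
  have hG1 : G ≤ β * (1 + r) := by
    have : 2 * h * G ≤ 2 * h * (β * (1 + r)) := by linarith
    exact le_of_mul_le_mul_left this (by linarith)
  have hLβ : L ≤ β := by rw [hL, e1]; nlinarith
  have hβ1 : 0 < β := by
    rcases hβ0.eq_or_lt with e | e
    · subst e; simp at hL hG1 c; linarith
    · exact e
  by_contra hno
  push Not at hno
  have : ∃ a, ∀ τ, |τ| ≤ h → L ≤ u τ → |τ - a| < d := by
    by_cases ex : ∃ a, |a| ≤ h ∧ L ≤ u a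
    · obtain ⟨a, ha, hLa⟩ := ex
      refine ⟨a, fun τ hτ hLτ => ?_⟩
      by_contra k
      push Not at k
      linarith [hno τ a hτ ha k hLτ]
    · exact ⟨0, fun τ hτ hLτ => absurd ⟨τ, hτ, hLτ⟩ ex⟩
  obtain ⟨a, ha⟩ := this
  have iind : IntervalIntegrable ((Set.Icc (a - d) (a + d)).indicator fun _ => 4 * β)
      volume (-h) h := by
    rw [intervalIntegrable_iff]
    exact (integrableOn_const (by simp [Set.uIoc]) enorm_ne_top).indicator measurableSet_Icc
  have up : ∫ τ in (-h)..h, (u τ * W τ - L * W τ) ≤ 4 * β * (2 * d) := by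
    calc _ ≤ ∫ τ in (-h)..h, (Set.Icc (a - d) (a + d)).indicator (fun _ => 4 * β) τ := by
          refine intervalIntegral.integral_mono_on hle (iuW.sub (iW.const_mul L)) iind
            fun τ hτ => ?_
          by_cases k : τ ∈ Set.Icc (a - d) (a + d)
          · rw [Set.indicator_of_mem k]
            have := (abs_le.1 (hβ τ (mem τ hτ))).2
            have := hW0 τ
            have := hW2 τ
            nlinarith
          · rw [Set.indicator_of_notMem k]
            have : u τ < L := by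
              by_contra k'
              push Not at k'
              have := abs_lt.1 (ha τ (mem τ hτ) k')
              exact k ⟨by linarith, by linarith⟩
            nlinarith [hW0 τ]
      _ ≤ _ := by
          rw [intervalIntegral.integral_of_le hle, integral_indicator measurableSet_Icc,
            Measure.restrict_restrict measurableSet_Icc, setIntegral_const, smul_eq_mul, mul_comm]
          gcongr
          calc _ ≤ volume.real (Set.Icc (a - d) (a + d)) :=
                measureReal_mono Set.inter_subset_left (by simp)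
            _ = _ := by rw [Real.volume_real_Icc_of_le (by linarith)]; ring
  rw [intervalIntegral.integral_sub iuW (iW.const_mul L), intervalIntegral.integral_const_mul] at up
  have low : L * ∫ τ in (-h)..h, W τ ≤ 2 * h * L + β * (2 * h * r) := by
    have : L * ((∫ τ in (-h)..h, W τ) - 2 * h) ≤ β * (2 * h * r) := by
      calc _ ≤ |L * ((∫ τ in (-h)..h, W τ) - 2 * h)| := le_abs_self _
        _ = |L| * |(∫ τ in (-h)..h, W τ) - 2 * h| := abs_mul _ _
        _ ≤ _ := by gcongr; exact abs_le.2 ⟨c.le, hLβ⟩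
    linarith
  have k1 : 2 * h * G - 2 * h * L = 2 * h * (26 * β * r) := by rw [hL, e1]; ring
  have k2 : 4 * β * (2 * d) ≤ 4 * β * (2 * (6 * h * r)) := by gcongr
  have k3 : 0 < h * β * r := by positivity
  nlinarith

/-- the integral of one oscillating term against the weight `1 + re (c e^{-i ν₀ τ})` -/
lemma integral_weight (ν ν₀ h : ℝ) (c : ℂ) :
    ∫ τ in (-h)..h, (ee (ν * τ) - (Real.sinc (ν * h) : ℝ)) * ((1 + (c * ee (-ν₀ * τ)).re : ℝ) : ℂ) =
      2 * h * (c / 2 * ((Real.sinc ((ν - ν₀) * h) - Real.sinc (ν * h) * Real.sinc (ν₀ * h) : ℝ) : ℂ) +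
        (starRingEnd ℂ) c / 2 *
          ((Real.sinc ((ν + ν₀) * h) - Real.sinc (ν * h) * Real.sinc (ν₀ * h) : ℝ) : ℂ)) := by
  set s : ℂ := ((Real.sinc (ν * h) : ℝ) : ℂ) with hs
  have e : ∀ τ : ℝ, (ee (ν * τ) - s) * ((1 + (c * ee (-ν₀ * τ)).re : ℝ) : ℂ) =
      (ee (ν * τ) - s * ee (0 * τ)) + (c / 2 * ee ((ν - ν₀) * τ) - c / 2 * s * ee (-ν₀ * τ)) +
        ((starRingEnd ℂ) c / 2 * ee ((ν + ν₀) * τ) - (starRingEnd ℂ) c / 2 * s * ee (ν₀ * τ)) := by
    intro τ
    rw [ofReal_add, Complex.re_eq_add_conj, map_mul, conj_ee, show (ν - ν₀) * τ = ν * τ + -ν₀ * τ by ring,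
      show (ν + ν₀) * τ = ν * τ + ν₀ * τ by ring, ee_add, ee_add,
      show -(-ν₀ * τ) = ν₀ * τ by ring]
    simp only [zero_mul, ee_zero, ofReal_one]
    ring
  simp only [e]
  have ci : ∀ (a : ℂ) (x : ℝ), IntervalIntegrable (fun τ => a * ee (x * τ)) volume (-h) h :=
    fun a x => (by fun_prop : Continuous fun τ => a * ee (x * τ)).intervalIntegrable _ _
  have ci' : ∀ (x : ℝ), IntervalIntegrable (fun τ => ee (x * τ)) volume (-h) h :=
    fun x => (by fun_prop : Continuous fun τ => ee (x * τ)).intervalIntegrable _ _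
  rw [intervalIntegral.integral_add (((ci' _).sub (ci _ _)).add ((ci _ _).sub (ci _ _)))
      ((ci _ _).sub (ci _ _)),
    intervalIntegral.integral_add ((ci' _).sub (ci _ _)) ((ci _ _).sub (ci _ _)),
    intervalIntegral.integral_sub (ci' _) (ci _ _), intervalIntegral.integral_sub (ci _ _) (ci _ _),
    intervalIntegral.integral_sub (ci _ _) (ci _ _)]
  simp only [intervalIntegral.integral_const_mul, integral_ee]
  simp only [neg_mul ν₀ h, Real.sinc_neg, zero_mul, Real.sinc_zero]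
  rw [hs]
  push_cast
  ring

theorem step_core {ι : Type} (J : Finset ι) (n : ι → ℝ) (D : ι → ℂ) {h d R ε g : ℝ}
    (hn : ∀ j ∈ J, 0 < n j) (hh : 0 < h) (hR : 3 ≤ R) (hd0 : 0 ≤ d) (hd : d ≤ 6 * h / R)
    (hε : 1 / R ≤ ε)
    (hg : g ≤ 0 ∨ ∃ j₀ ∈ J, R ≤ n j₀ * h ∧ g ≤ ‖D j₀‖ / 2 ∧
      ∀ j ∈ J, j ≠ j₀ → 1 / ε ≤ |(n j - n j₀) * h|) :
    ∃ τ₁ τ₂, |τ₁| ≤ h ∧ |τ₂| ≤ h ∧ d ≤ |τ₁ - τ₂| ∧ ∀ τ ∈ ({τ₁, τ₂} : Set ℝ),
      ‖∑ j ∈ J, D j * (Real.sinc (n j * h) : ℝ)‖ + g - 60 * ∑ j ∈ J, ‖D j‖ * min (n j * h) ε ≤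
        ‖∑ j ∈ J, D j * ee (n j * τ)‖ := by
  classical
  have hR0 : 0 < R := by linarith
  have hε0 : 0 < ε := lt_of_lt_of_le (by positivity) hε
  obtain ⟨φ, hφ, hA⟩ := Complex.exists_norm_eq_mul_self (∑ j ∈ J, D j * (Real.sinc (n j * h) : ℝ))
  set U : ℝ → ℂ := fun τ => ∑ j ∈ J, φ * D j * (ee (n j * τ) - (Real.sinc (n j * h) : ℝ)) with hU
  have cU : Continuous U := by
    refine continuous_finsetSum _ fun j _ => ?_
    fun_prop
  set β := ∑ j ∈ J, ‖D j‖ * (2 * min (n j * h) 1) with hβ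
  set Λ := ∑ j ∈ J, ‖D j‖ * min (n j * h) ε with hΛ
  have hΛ0 : 0 ≤ Λ := sum_nonneg fun j hj =>
    mul_nonneg (norm_nonneg _) (le_min (mul_pos (hn j hj) hh).le hε0.le)
  have bU : ∀ τ, |τ| ≤ h → |(U τ).re| ≤ β := by
    intro τ hτ
    refine (Complex.abs_re_le_norm _).trans ((norm_sum_le _ _).trans (sum_le_sum fun j hj => ?_))
    rw [norm_mul, norm_mul, hφ, one_mul]
    gcongr
    exact norm_ee_sub_sinc (hn j hj).le hτ
  have hβΛ : 26 * β / R ≤ 52 * Λ := by
    have : β / R ≤ 2 * Λ := by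
      rw [hβ, hΛ, sum_div, mul_sum]
      refine sum_le_sum fun j hj => ?_
      have h1 : min (n j * h) 1 / R ≤ min (n j * h) ε := by
        have hp : 0 < n j * h := mul_pos (hn j hj) hh
        refine le_min ?_ ?_
        · rw [div_le_iff₀ hR0]
          exact (min_le_left _ _).trans (by nlinarith)
        · exact (div_le_div_of_nonneg_right (min_le_right _ _) hR0.le).trans hε
      calc _ = 2 * (‖D j‖ * (min (n j * h) 1 / R)) := by ring
        _ ≤ _ := by gcongr
    calc 26 * β / R = 26 * (β / R) := by ring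
      _ ≤ _ := by linarith
  have fin : ∀ τ, ‖∑ j ∈ J, D j * (Real.sinc (n j * h) : ℝ)‖ + (U τ).re ≤
      ‖∑ j ∈ J, D j * ee (n j * τ)‖ := by
    intro τ
    have e : φ * ∑ j ∈ J, D j * ee (n j * τ) =
        φ * ∑ j ∈ J, D j * (Real.sinc (n j * h) : ℝ) + U τ := by
      rw [hU, mul_sum, mul_sum, ← sum_add_distrib]
      exact sum_congr rfl fun j _ => by ring
    calc _ = (φ * ∑ j ∈ J, D j * ee (n j * τ)).re := by rw [e, ← hA, add_re, ofReal_re]
      _ ≤ ‖φ * ∑ j ∈ J, D j * ee (n j * τ)‖ := Complex.re_le_norm _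
      _ = _ := by rw [norm_mul, hφ, one_mul]
  have intU : ∀ (ν₀ : ℝ) (c : ℂ), ∫ τ in (-h)..h, (U τ).re * (1 + (c * ee (-ν₀ * τ)).re) =
      (∑ j ∈ J, φ * D j * ∫ τ in (-h)..h, (ee (n j * τ) - (Real.sinc (n j * h) : ℝ)) *
        ((1 + (c * ee (-ν₀ * τ)).re : ℝ) : ℂ)).re := by
    intro ν₀ c
    have cW : Continuous fun τ : ℝ => ((1 + (c * ee (-ν₀ * τ)).re : ℝ) : ℂ) := by fun_prop
    have e1 : ∀ τ, (U τ).re * (1 + (c * ee (-ν₀ * τ)).re) =
        reCLM (U τ * ((1 + (c * ee (-ν₀ * τ)).re : ℝ) : ℂ)) := by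
      intro τ; rw [reCLM_apply, re_mul_ofReal]
    simp only [e1]
    rw [reCLM.intervalIntegral_comp_comm
      (f := fun τ => U τ * ((1 + (c * ee (-ν₀ * τ)).re : ℝ) : ℂ))
      ((cU.mul cW).intervalIntegrable _ _), reCLM_apply]
    congr 1
    simp only [hU, sum_mul]
    rw [intervalIntegral.integral_finsetSum fun j _ =>
      Continuous.intervalIntegrable (by fun_prop) _ _]
    refine sum_congr rfl fun j _ => ?_
    rw [← intervalIntegral.integral_const_mul]
    simp only [mul_assoc]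
  suffices H : ∃ W : ℝ → ℝ, Continuous W ∧ (∀ τ, 0 ≤ W τ) ∧ (∀ τ, W τ ≤ 2) ∧
      |(∫ τ in (-h)..h, W τ) - 2 * h| ≤ 2 * h / R ∧
      2 * h * (g - 8 * Λ) ≤ ∫ τ in (-h)..h, (U τ).re * W τ by
    obtain ⟨W, c1, c2, c3, c4, c5⟩ := H
    obtain ⟨τ₁, τ₂, k1, k2, k3, k4, k5⟩ :=
      two_points (u := fun τ => (U τ).re) (by fun_prop) c1 hh hR hd0 hd bU c2 c3 c4 c5
    refine ⟨τ₁, τ₂, k1, k2, k3, ?_⟩
    rintro τ (rfl | rfl)
    · linarith [fin τ]
    · linarith [fin τ]
  rcases hg with hg | ⟨j₀, hj₀, h1, h2, h3⟩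
  · refine ⟨fun _ => 1, continuous_const, by simp, by simp, ?_, ?_⟩
    · simp only [intervalIntegral.integral_const, smul_eq_mul]
      rw [show (h - -h) * 1 - 2 * h = 0 by ring, abs_zero]; positivity
    · have := intU 0 0
      simp only [integral_weight] at this
      simp only [zero_mul, zero_re, add_zero, zero_div, map_zero, mul_zero, sum_const_zero] at this
      rw [this]
      nlinarith
  obtain ⟨c, hc, hcD⟩ := Complex.exists_norm_eq_mul_self (φ * D j₀)
  have wb : ∀ τ : ℝ, |(c * ee (-n j₀ * τ)).re| ≤ 1 := fun τ =>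
    (Complex.abs_re_le_norm _).trans (by rw [norm_mul, hc, norm_ee, one_mul])
  have s0 : |Real.sinc (n j₀ * h)| ≤ 1 / R := abs_sinc_le hR0 (h1.trans (le_abs_self _))
  refine ⟨fun τ => 1 + (c * ee (-n j₀ * τ)).re, by fun_prop,
    fun τ => by linarith [(abs_le.1 (wb τ)).1], fun τ => by linarith [(abs_le.1 (wb τ)).2], ?_, ?_⟩
  · have ci : IntervalIntegrable (fun τ => c * ee (-n j₀ * τ)) volume (-h) h :=
      (by fun_prop : Continuous fun τ => c * ee (-n j₀ * τ)).intervalIntegrable _ _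
    rw [intervalIntegral.integral_add (by simp)
      (Continuous.intervalIntegrable (by fun_prop) _ _)]
    have := reCLM.intervalIntegral_comp_comm ci
    simp only [reCLM_apply] at this
    rw [this, intervalIntegral.integral_const_mul, integral_ee]
    simp only [intervalIntegral.integral_const, smul_eq_mul]
    rw [show ∀ x : ℝ, (h - -h) * 1 + x - 2 * h = x from fun x => by ring]
    refine (Complex.abs_re_le_norm _).trans ?_
    rw [norm_mul, hc, one_mul, Complex.norm_real, Real.norm_eq_abs, abs_mul,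
      abs_of_pos (by linarith : 0 < 2 * h), neg_mul, Real.sinc_neg]
    calc _ ≤ 2 * h * (1 / R) := by gcongr
      _ = _ := by ring
  rw [intU, Complex.re_sum]
  have term : ∀ j ∈ J, 2 * h * ((if j = j₀ then ‖D j₀‖ / 2 else 0) - 8 * (‖D j‖ * min (n j * h) ε)) ≤
      (φ * D j * ∫ τ in (-h)..h, (ee (n j * τ) - (Real.sinc (n j * h) : ℝ)) *
        ((1 + (c * ee (-n j₀ * τ)).re : ℝ) : ℂ)).re := by
    intro j hj
    have hp : 0 < n j * h := mul_pos (hn j hj) hh
    have sp : |Real.sinc ((n j + n j₀) * h)| ≤ 1 / R :=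
      abs_sinc_le hR0 (le_trans (by nlinarith) (le_abs_self _))
    have ss : |Real.sinc (n j * h) * Real.sinc (n j₀ * h)| ≤ 1 / R := by
      rw [abs_mul]
      exact (mul_le_of_le_one_left (abs_nonneg _) (Real.abs_sinc_le_one _)).trans s0
    have gen : ∀ (z I : ℂ) (b : ℝ), ‖z‖ = ‖D j‖ → ‖I‖ ≤ b → -(‖D j‖ * b) ≤ (z * I).re := by
      intro z I b hz hI
      have := (abs_le.1 (Complex.abs_re_le_norm (z * I))).1
      rw [norm_mul, hz] at this
      have := mul_le_mul_of_nonneg_left hI (norm_nonneg (D j))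
      linarith
    have nz : ‖φ * D j‖ = ‖D j‖ := by rw [norm_mul, hφ, one_mul]
    have nb : ∀ x y : ℝ, |x| ≤ 2 * ε → |y| ≤ 2 * ε →
        ‖2 * (h : ℂ) * (c / 2 * (x : ℂ) + (starRingEnd ℂ) c / 2 * (y : ℂ))‖ ≤ 2 * h * (2 * ε) := by
      intro x y hx hy
      rw [norm_mul, norm_mul, Complex.norm_real, Real.norm_of_nonneg hh.le, Complex.norm_two]
      gcongr
      refine (norm_add_le _ _).trans ?_
      simp only [norm_mul, norm_div, hc, Complex.norm_two, Complex.norm_real, Real.norm_eq_abs,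
        Complex.norm_conj]
      linarith
    have hy : |Real.sinc ((n j + n j₀) * h) - Real.sinc (n j * h) * Real.sinc (n j₀ * h)| ≤ 2 * ε :=
      (abs_sub _ _).trans (by linarith)
    split_ifs with e
    · subst e
      rw [integral_weight, sub_self, zero_mul, Real.sinc_zero]
      have hmin : 1 / R ≤ min (n j * h) ε := by
        refine le_min (le_trans ?_ h1) hε
        rw [div_le_iff₀ hR0]; nlinarith
      have nb' : ‖2 * (h : ℂ) * (c / 2 * ((-(Real.sinc (n j * h) * Real.sinc (n j * h)) : ℝ) : ℂ) +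
          (starRingEnd ℂ) c / 2 * ((Real.sinc ((n j + n j) * h) -
            Real.sinc (n j * h) * Real.sinc (n j * h) : ℝ) : ℂ))‖ ≤ 2 * h * (2 * (1 / R)) := by
        rw [norm_mul, norm_mul, Complex.norm_real, Real.norm_of_nonneg hh.le, Complex.norm_two]
        gcongr
        refine (norm_add_le _ _).trans ?_
        simp only [norm_mul, norm_div, hc, Complex.norm_two, Complex.norm_real, Real.norm_eq_abs,
          Complex.norm_conj, abs_neg]
        have := abs_sub (Real.sinc ((n j + n j) * h)) (Real.sinc (n j * h) * Real.sinc (n j * h))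
        have : 0 < 1 / R := by positivity
        linarith
      have k := gen _ _ _ nz nb'
      have e : φ * D j * (2 * (h : ℂ) *
          (c / 2 * ((1 - Real.sinc (n j * h) * Real.sinc (n j * h) : ℝ) : ℂ) +
          (starRingEnd ℂ) c / 2 * ((Real.sinc ((n j + n j) * h) -
            Real.sinc (n j * h) * Real.sinc (n j * h) : ℝ) : ℂ))) =
          ((h * ‖D j‖ : ℝ) : ℂ) + φ * D j * (2 * (h : ℂ) *
            (c / 2 * ((-(Real.sinc (n j * h) * Real.sinc (n j * h)) : ℝ) : ℂ) +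
          (starRingEnd ℂ) c / 2 * ((Real.sinc ((n j + n j) * h) -
            Real.sinc (n j * h) * Real.sinc (n j * h) : ℝ) : ℂ))) := by
        rw [ofReal_mul, ← nz, hcD]; push_cast; ring
      rw [e, add_re, ofReal_re]
      have : ‖D j‖ * (1 / R) ≤ ‖D j‖ * min (n j * h) ε := by gcongr
      have : 0 ≤ ‖D j‖ * (1 / R) := by positivity
      nlinarith
    · rcases le_total (n j * h) ε with k | k
      · rw [min_eq_left k]
        have : ‖∫ τ in (-h)..h, (ee (n j * τ) - (Real.sinc (n j * h) : ℝ)) *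
            ((1 + (c * ee (-n j₀ * τ)).re : ℝ) : ℂ)‖ ≤ (2 * (n j * h) * 2) * |h - -h| := by
          refine intervalIntegral.norm_integral_le_of_norm_le_const fun τ hτ => ?_
          rw [Set.uIoc_of_le (by linarith)] at hτ
          rw [norm_mul, Complex.norm_real, Real.norm_eq_abs]
          have a1 := norm_ee_sub_sinc (hn j hj).le (abs_le.2 ⟨hτ.1.le, hτ.2⟩)
          have a2 : |1 + (c * ee (-n j₀ * τ)).re| ≤ 2 :=
            (abs_add_le _ _).trans (by linarith [wb τ, abs_one (α := ℝ)])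
          have a3 := min_le_left (n j * h) 1
          gcongr
          linarith
        have k := gen _ _ _ nz this
        rw [sub_neg_eq_add, abs_of_pos (by linarith)] at k
        have : 0 ≤ ‖D j‖ * (n j * h) * h := by positivity
        nlinarith
      · rw [min_eq_right k, integral_weight]
        have hx : |Real.sinc ((n j - n j₀) * h) - Real.sinc (n j * h) * Real.sinc (n j₀ * h)| ≤
            2 * ε := by
          have := abs_sinc_le (by positivity) (h3 j hj e)
          rw [one_div_one_div] at this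
          exact (abs_sub _ _).trans (by linarith)
        have k := gen _ _ _ nz (nb _ _ hx hy)
        have : 0 ≤ ‖D j‖ * ε * h := by positivity
        nlinarith
  refine le_trans ?_ (sum_le_sum term)
  rw [← mul_sum, sum_sub_distrib, ← mul_sum, sum_ite_eq' J j₀, if_pos hj₀]
  gcongr

theorem regen {ι : Type} (J : Finset ι) (n : ι → ℝ) (C : ι → ℂ) {l K : ℝ} (hl : 0 < l)
    (hK : 0 < K) {j₀ : ι} (hj₀ : j₀ ∈ J) (hsep : ∀ j ∈ J, j ≠ j₀ → K ≤ |(n j - n j₀) * l|) :
    ∃ τ, |τ| ≤ l ∧ ‖C j₀‖ - (∑ j ∈ J, ‖C j‖) / K ≤ ‖∑ j ∈ J, C j * ee (n j * τ)‖ := by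
  classical
  have cF : Continuous fun τ => ‖∑ j ∈ J, C j * ee (n j * τ)‖ := by
    refine (continuous_finsetSum _ fun j _ => ?_).norm
    fun_prop
  obtain ⟨τ, hτ, hmax⟩ := (isCompact_Icc (a := -l) (b := l)).exists_isMaxOn
    ⟨0, by constructor <;> linarith⟩ cF.continuousOn
  refine ⟨τ, abs_le.2 hτ, ?_⟩
  have e : ∫ σ in (-l)..l, (∑ j ∈ J, C j * ee (n j * σ)) * ee (-n j₀ * σ) =
      ∑ j ∈ J, C j * ((2 * l * Real.sinc ((n j - n j₀) * l) : ℝ) : ℂ) := by
    simp only [sum_mul]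
    rw [intervalIntegral.integral_finsetSum fun j _ =>
      Continuous.intervalIntegrable (by fun_prop) _ _]
    refine sum_congr rfl fun j _ => ?_
    rw [← integral_ee, ← intervalIntegral.integral_const_mul]
    congr 1; funext σ
    rw [mul_assoc, ← ee_add]; congr 2; ring
  have up : ‖∫ σ in (-l)..l, (∑ j ∈ J, C j * ee (n j * σ)) * ee (-n j₀ * σ)‖ ≤
      ‖∑ j ∈ J, C j * ee (n j * τ)‖ * |l - -l| := by
    refine intervalIntegral.norm_integral_le_of_norm_le_const fun σ hσ => ?_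
    rw [Set.uIoc_of_le (by linarith)] at hσ
    rw [norm_mul, norm_ee, mul_one]
    exact hmax ⟨hσ.1.le, hσ.2⟩
  rw [e, sub_neg_eq_add, abs_of_pos (by linarith), ← add_sum_erase J _ hj₀, sub_self, zero_mul,
    Real.sinc_zero] at up
  have k1 : ‖∑ j ∈ J.erase j₀, C j * ((2 * l * Real.sinc ((n j - n j₀) * l) : ℝ) : ℂ)‖ ≤
      2 * l * ((∑ j ∈ J, ‖C j‖) / K) := by
    refine (norm_sum_le _ _).trans ?_
    calc _ ≤ ∑ j ∈ J.erase j₀, 2 * l * (‖C j‖ / K) := by
          refine sum_le_sum fun j hj => ?_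
          rw [norm_mul, Complex.norm_real, Real.norm_eq_abs, abs_mul,
            abs_of_pos (by linarith : 0 < 2 * l)]
          have := abs_sinc_le hK (hsep j (mem_of_mem_erase hj) (ne_of_mem_erase hj))
          calc _ ≤ ‖C j‖ * (2 * l * (1 / K)) := by gcongr
            _ = _ := by ring
      _ ≤ ∑ j ∈ J, 2 * l * (‖C j‖ / K) :=
          sum_le_sum_of_subset_of_nonneg (erase_subset _ _) fun j _ _ => by positivity
      _ = _ := by rw [← mul_sum, sum_div]
  have k2 := norm_sub_le_norm_add (C j₀ * ((2 * l * 1 : ℝ) : ℂ))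
    (∑ j ∈ J.erase j₀, C j * ((2 * l * Real.sinc ((n j - n j₀) * l) : ℝ) : ℂ))
  rw [norm_mul, Complex.norm_real, Real.norm_eq_abs, abs_of_pos (by linarith)] at k2
  have : 2 * l * (‖C j₀‖ - (∑ j ∈ J, ‖C j‖) / K) ≤ 2 * l * ‖∑ j ∈ J, C j * ee (n j * τ)‖ := by
    linarith
  exact le_of_mul_le_mul_left this (by linarith)

end Pool.Agent.P.MP_bdd694_an
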