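import Pool.Agent.P.MP_bdd694_an.Block
import Pool.Agent.P.MP_bdd694_an.Step

/-! Steering the averages so that they are large at the reference points. -/

open Finset

namespace Pool.Agent.P.MP_bdd694_an

namespace Par

variable (p : Par) (D : Data) (τ : ℕ → ℝ)

noncomputable def rr (m : ℕ) : ℕ :=
  if D.hd (p.R ^ (2 * m + 1)) (τ m) - D.hd (p.R ^ (2 * m)) (τ m) ≤
    D.hd (p.R ^ (2 * m + 2)) (τ m) - D.hd (p.R ^ (2 * m + 1)) (τ m) then 0 else 1

noncomputable def hh (m : ℕ) : ℝ := 1 / p.R ^ (2 * m + p.rr D τ m)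

noncomputable def gain (m : ℕ) : ℝ :=
  (D.hd (p.R ^ (2 * (m + 1) + p.rr D τ (m + 1))) (τ (m + 1)) -
    D.hd (p.R ^ (2 * m + p.rr D τ m + 1)) (τ (m + 1))) / (8 * p.k)

noncomputable def loss (m : ℕ) : ℝ :=
  ∑ j ∈ D.J, D.b j (τ (m + 1)) *
    (min (D.n j * p.hh D τ m) p.ε₁ * min 1 (1 / (D.n j * p.hh D τ (m + 1))))

noncomputable def chg (m : ℕ) : ℝ :=
  ∑ j ∈ D.J, |D.b j (τ (m + 1)) - D.b j (τ m)| * min 1 (1 / (D.n j * p.hh D τ m))

noncomputable def gg (m : ℕ) : ℝ :=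
  ∑ l ∈ range m, (p.gain D τ l - 60 * p.loss D τ l - p.chg D τ l)

noncomputable def KK (M m : ℕ) (ν : ℝ) : ℝ := ∏ l ∈ Ico m M, Real.sinc (ν * p.hh D τ l)

noncomputable def AA (M m : ℕ) (t x : ℝ) : ℂ :=
  ∑ j ∈ D.J, D.c j * (Real.exp (D.n j * t) : ℝ) * (p.KK D τ M m (D.n j) : ℝ) * ee (D.n j * x)

lemma rr_le (m : ℕ) : p.rr D τ m ≤ 1 := by unfold rr; split_ifs <;> simp

end Par

noncomputable def Data.F (D : Data) (t x : ℝ) : ℂ :=
  ∑ j ∈ D.J, D.c j * (Real.exp (D.n j * t) : ℝ) * ee (D.n j * x)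

lemma Data.norm_coef (D : Data) (j : ℕ) (t : ℝ) :
    ‖D.c j * (Real.exp (D.n j * t) : ℝ)‖ = D.b j t := by
  rw [norm_mul, Complex.norm_real, Real.norm_of_nonneg (Real.exp_pos _).le, Data.b]

lemma Data.norm_coef_sub (D : Data) (j : ℕ) (t t' : ℝ) :
    ‖D.c j * (Real.exp (D.n j * t') : ℝ) - D.c j * (Real.exp (D.n j * t) : ℝ)‖ =
      |D.b j t' - D.b j t| := by
  rw [← mul_sub, ← Complex.ofReal_sub, norm_mul, Complex.norm_real, Data.b, Data.b, ← mul_sub,
    abs_mul, abs_norm, Real.norm_eq_abs]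

namespace Par

variable {p : Par} {D : Data} {τ : ℕ → ℝ} (o : p.Ok)
include o

lemma hh_pos (m : ℕ) : 0 < p.hh D τ m := by have := o.R_pos; unfold hh; positivity

lemma hh_succ (m : ℕ) : p.R * p.hh D τ (m + 1) ≤ p.hh D τ m := by
  have := o.R_pos
  unfold hh
  rw [mul_one_div, div_le_div_iff₀ (by positivity) (by positivity), one_mul, ← pow_succ']
  exact o.pow_mono (by have := p.rr_le D τ m; omega)

lemma hh_le (m : ℕ) : p.hh D τ m ≤ 1 / p.z m :=
  one_div_le_one_div_of_le (o.z_pos m) (o.pow_mono (by omega))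

lemma le_hh (m : ℕ) : 1 / (p.R * p.z m) ≤ p.hh D τ m := by
  have := o.R_pos
  refine one_div_le_one_div_of_le (by positivity) ?_
  rw [z, ← pow_succ']
  exact o.pow_mono (by have := p.rr_le D τ m; omega)

lemma block (L : D.Lac p.q p.V) {a b : ℕ} (hab : a < b) {σ Sp : ℝ}
    (hτ : ∀ m, a < m → m ≤ b → τ m = σ) (h1 : p.c₀ / 2 * Sp ≤ p.gg D τ a)
    (h2 : p.chg D τ a ≤ p.ε₂ * D.S σ) (h3 : D.hd (p.z (a + 1)) σ ≤ Sp + p.ε₂ * D.S σ)
    (h4 : (1 + p.ζ) * Sp ≤ D.S σ) (s : p.Safe D σ b) :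
    p.c₀ / 2 * D.S σ ≤ p.gg D τ b := by
  have e0 : p.gg D τ b = p.gg D τ a + (∑ m ∈ Ico a b, p.gain D τ m -
      60 * ∑ m ∈ Ico a b, p.loss D τ m - ∑ m ∈ Ico a b, p.chg D τ m) := by
    rw [gg, gg, ← sum_range_add_sum_Ico _ hab.le]
    congr 1
    rw [sum_sub_distrib, sum_sub_distrib, ← mul_sum]
  have hS := D.S_nonneg σ
  have hk := o.k_pos
  have g1 : p.c₀ * (D.hd (p.z b) σ - D.hd (p.z (a + 1)) σ) ≤ ∑ m ∈ Ico a b, p.gain D τ m := by
    let φ : ℕ → ℝ := fun v => D.hd (p.R ^ v) σ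
    have hφ : Monotone φ := fun u v h => D.hd_mono (o.pow_mono h) σ
    have := gain_sum φ hφ (p.rr D τ) (p.rr_le D τ) hab fun m m1 m2 => by
      have e := hτ m m1 m2.le
      simp only [φ, rr, e]
      split_ifs with c
      · simp only [add_zero]; linarith
      · linarith
    have e : ∑ m ∈ Ico a b, p.gain D τ m = (∑ m ∈ Ico a b,
        (φ (2 * (m + 1) + p.rr D τ (m + 1)) - φ (2 * m + p.rr D τ m + 1))) / (8 * p.k) := by
      rw [sum_div]
      refine sum_congr rfl fun m hm => ?_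
      rw [mem_Ico] at hm
      rw [gain, hτ (m + 1) (by omega) (by omega)]
    rw [e, le_div_iff₀ (by positivity)]
    have k : φ (2 * b) ≤ φ (2 * b + p.rr D τ b) := hφ (by omega)
    have e2 : p.c₀ * (D.hd (p.z b) σ - D.hd (p.z (a + 1)) σ) * (8 * p.k) =
        (φ (2 * b) - φ (2 * a + 2)) / 2 := by
      simp only [φ, c₀, z, show 2 * (a + 1) = 2 * a + 2 by ring]
      field_simp; ring
    linarith
  have g2 : ∑ m ∈ Ico a b, p.loss D τ m ≤ 6 * p.ε₁ * D.S σ := by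
    have e : ∑ m ∈ Ico a b, p.loss D τ m = ∑ j ∈ D.J, D.b j σ * ∑ m ∈ Ico a b,
        (min (D.n j * p.hh D τ m) p.ε₁ * min 1 (1 / (D.n j * p.hh D τ (m + 1)))) := by
      simp only [mul_sum]
      rw [sum_comm]
      refine sum_congr rfl fun m hm => ?_
      rw [mem_Ico] at hm
      rw [loss, hτ (m + 1) (by omega) (by omega)]
    rw [e, Data.S, mul_sum]
    refine sum_le_sum fun j hj => ?_
    have hn := L.pos hj
    have := sum_weight_le (R := p.R) (by linarith [o.hR]) o.inv_R_le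
      (fun m => D.n j * p.hh D τ m) (fun m => mul_pos hn (hh_pos o m))
      (fun m => by
        have := mul_le_mul_of_nonneg_left (hh_succ (D := D) (τ := τ) o m) hn.le
        linarith) a b
    rw [mul_comm]
    exact mul_le_mul_of_nonneg_right this (D.b_nonneg j σ)
  have g3 : ∑ m ∈ Ico a b, p.chg D τ m = p.chg D τ a := by
    rw [sum_eq_single_of_mem a (by simp [hab])]
    intro m hm ne
    rw [mem_Ico] at hm
    simp [chg, hτ (m + 1) (by omega) (by omega), hτ m (by omega) (by omega)]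
  have g4 : (1 - 4 * p.η) * D.S σ ≤ D.hd (p.z b) σ := by
    have := D.hd_mono (div_le_self (o.z_pos b).le o.one_le_V) σ
    have : p.η₁ * D.S σ ≤ p.η * D.S σ := by gcongr; exact o.η₁_le
    linarith [s.2.1, s.2.2]
  have hζ := o.ζ_pos
  have hζ1 := o.ζ_le
  have hc := o.c₀_pos
  have k1 : Sp ≤ (1 - p.ζ / 2) * D.S σ := by
    have : (1 + p.ζ) * Sp ≤ (1 + p.ζ) * ((1 - p.ζ / 2) * D.S σ) := by
      have : 0 ≤ p.ζ * (1 - p.ζ) * D.S σ := mul_nonneg (mul_nonneg hζ.le (by linarith)) hS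
      nlinarith
    exact le_of_mul_le_mul_left this (by linarith)
  have k2 : 360 * p.ε₁ * D.S σ ≤ p.c₀ * p.ζ / 12 * D.S σ := by gcongr; exact o.hloss
  have k3 : 2 * p.ε₂ * D.S σ ≤ p.c₀ * p.ζ / 12 * D.S σ := by gcongr; exact o.hε₂
  have k4 : p.c₀ * (p.ε₂ * D.S σ) ≤ 1 * (p.ε₂ * D.S σ) := by
    have := o.ε₂_pos
    gcongr; linarith [o.c₀_le]
  have k5 : p.c₀ * ((1 - 4 * p.η) * D.S σ - (Sp + p.ε₂ * D.S σ)) ≤
      p.c₀ * (D.hd (p.z b) σ - D.hd (p.z (a + 1)) σ) := by gcongr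
  have k6 : p.c₀ * Sp ≤ p.c₀ * ((1 - p.ζ / 2) * D.S σ) := by gcongr
  have h9 : p.η = p.ζ / 48 := rfl
  rw [h9] at k5
  rw [e0, g3]
  nlinarith

theorem ref_bound (L : D.Lac p.q p.V) (hS : ∀ t, 0 < D.S t) {Ref : ℕ → Prop}
    (r1 : ∀ b, Ref b → p.Safe D (τ b) b) (r2 : ∀ m, ¬ Ref m → τ (m + 1) = τ m)
    (r3 : ∀ a b, Ref a → Ref b → a < b → (1 + p.ζ) * D.S (τ a) ≤ D.S (τ b)) (b : ℕ) :
    Ref b → p.c₀ / 2 * D.S (τ b) ≤ p.gg D τ b := by
  classical
  induction b using Nat.strong_induction_on with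
  | _ b ih =>
  intro hb
  have hb0 := safe_pos o L hS (r1 b hb)
  have const : ∀ a, (∀ m, a < m → m < b → ¬ Ref m) → ∀ m, a < m → m ≤ b → τ m = τ b := by
    intro a h m m1 m2
    induction m2 using Nat.decreasingInduction with
    | self => rfl
    | of_succ m hm ih2 => rw [← r2 m (h m m1 hm)]; exact ih2 (by omega)
  have e2 : 0 ≤ p.ε₂ * D.S (τ b) := (mul_pos o.ε₂_pos (hS _)).le
  by_cases ex : ∃ a < b, Ref a
  · obtain ⟨a₀, h1, h2⟩ := ex
    set a := Nat.findGreatest Ref (b - 1) with ha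
    have a1 : Ref a := Nat.findGreatest_spec (m := a₀) (by omega) h2
    have a2 : a < b := by have := Nat.findGreatest_le (P := Ref) (b - 1); omega
    have a3 : ∀ m, a < m → m < b → ¬ Ref m := fun m m1 m2 =>
      Nat.findGreatest_is_greatest m1 (by omega)
    have sep := r3 a b a1 hb a2
    have le := le_of_S o L (hS _) sep
    refine block o L a2 (const a a3) (ih a a2 a1) ?_ ?_ sep (r1 b hb)
    · rw [chg, const a a3 (a + 1) (by omega) (by omega)]
      exact transfer_chg o L (r1 a a1) le (le_hh o a)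
    · refine le_trans (D.hd_mono ?_ _) (transfer_hd o (r1 a a1) le)
      rw [z, z, show 2 * (a + 1) = 2 * a + 2 by ring, pow_add]
      exact mul_le_mul_of_nonneg_left o.sq_le_V (o.z_pos a).le
  · push Not at ex
    refine block o L hb0 (Sp := 0) (const 0 fun m _ h => ex m h) (by simp [gg]) ?_ ?_
      (by simpa using (hS _).le) (r1 b hb)
    · simpa [chg, r2 0 (ex 0 hb0)] using e2
    · rw [D.hd_eq_zero fun j hj => le_trans (by simpa [z] using o.sq_le_V) (L.le j hj)]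
      linarith

omit o in
lemma KK_succ {M m : ℕ} (h : m < M) (ν : ℝ) :
    p.KK D τ M m ν = Real.sinc (ν * p.hh D τ m) * p.KK D τ M (m + 1) ν :=
  prod_eq_prod_Ico_succ_bot h _

omit o in
lemma abs_KK_le_one (M m : ℕ) (ν : ℝ) : |p.KK D τ M m ν| ≤ 1 := by
  rw [KK, abs_prod]
  exact prod_le_one (fun _ _ => abs_nonneg _) fun _ _ => Real.abs_sinc_le_one _

lemma abs_KK_le {M m : ℕ} (h : m ≤ M) {ν : ℝ} (hν : 0 < ν) (hM : ν < p.z M) :
    |p.KK D τ M m ν| ≤ min 1 (1 / (ν * p.hh D τ m)) := by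
  have hp : 0 < ν * p.hh D τ m := mul_pos hν (hh_pos o m)
  refine le_min (abs_KK_le_one _ _ _) ?_
  rcases h.eq_or_lt with rfl | h
  · refine (abs_KK_le_one _ _ _).trans ?_
    rw [le_div_iff₀ hp, one_mul]
    calc _ ≤ p.z m * (1 / p.z m) := by
          have := hh_pos (D := D) (τ := τ) o m
          have := o.z_pos m
          gcongr; exact hh_le o m
      _ = 1 := by have := o.z_pos m; field_simp
  · rw [KK_succ h, abs_mul]
    exact (mul_le_of_le_one_right (abs_nonneg _) (abs_KK_le_one _ _ _)).trans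
      (abs_sinc_le hp (le_abs_self _))

lemma abs_one_sub_KK {M m : ℕ} (h : m ≤ M) {ν : ℝ} (hν : 0 < ν) :
    |1 - p.KK D τ M m ν| ≤ (ν * p.hh D τ m) ^ 2 / 3 := by
  induction h using Nat.decreasingInduction with
  | self => simp [KK]; positivity
  | of_succ m hm ih =>
    rw [KK_succ hm]
    have hp : 0 < ν * p.hh D τ m := mul_pos hν (hh_pos o m)
    have hp' : 0 < ν * p.hh D τ (m + 1) := mul_pos hν (hh_pos o _)
    have h1 := one_sub_sinc_le hp.le
    have h2 := Real.sinc_le_one (ν * p.hh D τ m)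
    have h3 := Real.abs_sinc_le_one (ν * p.hh D τ m)
    have h4 : 3 * (ν * p.hh D τ (m + 1)) ≤ ν * p.hh D τ m := by
      have := mul_le_mul_of_nonneg_left (hh_succ (D := D) (τ := τ) o m) hν.le
      nlinarith [o.hR]
    calc _ = |(1 - Real.sinc (ν * p.hh D τ m)) +
          Real.sinc (ν * p.hh D τ m) * (1 - p.KK D τ M (m + 1) ν)| := by ring_nf
      _ ≤ |1 - Real.sinc (ν * p.hh D τ m)| +
          |Real.sinc (ν * p.hh D τ m) * (1 - p.KK D τ M (m + 1) ν)| := abs_add_le _ _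
      _ ≤ (ν * p.hh D τ m) ^ 2 / 6 + 1 * ((ν * p.hh D τ (m + 1)) ^ 2 / 3) := by
          rw [abs_mul, abs_of_nonneg (sub_nonneg.2 h2)]
          gcongr
      _ ≤ _ := by nlinarith

theorem good_step (L : D.Lac p.q p.V) {M : ℕ} (hM : ∀ j ∈ D.J, D.n j < p.z M) (m : ℕ) (hm : m < M)
    (x : ℝ) (hx : p.gg D τ m ≤ ‖p.AA D τ M m (τ m) x‖) :
    ∃ y₁ y₂, |y₁ - x| ≤ p.hh D τ m ∧ |y₂ - x| ≤ p.hh D τ m ∧
      6 * p.hh D τ (m + 1) ≤ |y₁ - y₂| ∧
      p.gg D τ (m + 1) ≤ ‖p.AA D τ M (m + 1) (τ (m + 1)) y₁‖ ∧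
      p.gg D τ (m + 1) ≤ ‖p.AA D τ M (m + 1) (τ (m + 1)) y₂‖ := by
  set σ := τ (m + 1) with hσ
  have hR := o.R_pos
  have h1 : ‖p.AA D τ M m (τ m) x‖ - p.chg D τ m ≤ ‖p.AA D τ M m σ x‖ := by
    have : ‖p.AA D τ M m σ x - p.AA D τ M m (τ m) x‖ ≤ p.chg D τ m := by
      rw [AA, AA, ← sum_sub_distrib]
      refine (norm_sum_le _ _).trans (sum_le_sum fun j hj => ?_)
      rw [← sub_mul, ← sub_mul, norm_mul, norm_mul, norm_ee, mul_one, D.norm_coef_sub,
        Complex.norm_real, Real.norm_eq_abs]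
      gcongr
      exact abs_KK_le o hm.le (L.pos hj) (hM j hj)
    have := norm_sub_norm_le (p.AA D τ M m (τ m) x) (p.AA D τ M m σ x)
    rw [norm_sub_rev] at this
    linarith
  set E : ℕ → ℂ := fun j => D.c j * (Real.exp (D.n j * σ) : ℝ) *
    (p.KK D τ M (m + 1) (D.n j) : ℝ) * ee (D.n j * x) with hE
  have nE : ∀ j, ‖E j‖ = D.b j σ * |p.KK D τ M (m + 1) (D.n j)| := by
    intro j
    rw [hE]; simp only
    rw [norm_mul, norm_mul, norm_ee, mul_one, D.norm_coef, Complex.norm_real, Real.norm_eq_abs]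
  have hg : p.gain D τ m ≤ 0 ∨ ∃ j₀ ∈ D.J, p.R ≤ D.n j₀ * p.hh D τ m ∧
      p.gain D τ m ≤ ‖E j₀‖ / 2 ∧
      ∀ j ∈ D.J, j ≠ j₀ → 1 / p.ε₁ ≤ |(D.n j - D.n j₀) * p.hh D τ m| := by
    have hk := o.k_pos
    have r1 := p.rr_le D τ m
    have r2 := p.rr_le D τ (m + 1)
    rcases L.band_max o.hq (T := p.k * 2) (y := p.R ^ (2 * m + p.rr D τ m + 1))
      (y' := p.R ^ (2 * (m + 1) + p.rr D τ (m + 1))) σ (by positivity) (o.pow_mono (by omega))
      (by rw [pow_mul]; change _ ≤ _ * p.R ^ 2; rw [← pow_add]; exact o.pow_mono (by omega))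
      with c | ⟨j, hj, c1, c2, c3⟩
    · left; exact div_nonpos_of_nonpos_of_nonneg c (by positivity)
    right
    have a1 : p.R ≤ D.n j * p.hh D τ m := by
      rw [hh, mul_one_div, le_div_iff₀ (by positivity), ← pow_succ']; exact c1
    refine ⟨j, hj, a1, ?_, fun i hi ne => ?_⟩
    · have a2 : D.n j * p.hh D τ (m + 1) ≤ 1 := by
        rw [hh, mul_one_div, div_le_one (by positivity)]; exact c2.le
      have a3 := abs_one_sub_KK (D := D) (τ := τ) o (M := M) (m := m + 1) hm (L.pos hj)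
      have a4 : 0 < D.n j * p.hh D τ (m + 1) := mul_pos (L.pos hj) (hh_pos o _)
      have a5 : 1 / 2 ≤ |p.KK D τ M (m + 1) (D.n j)| := by
        refine le_trans ?_ (le_abs_self _)
        have := (abs_le.1 a3).2
        nlinarith
      have b0 := D.b_nonneg j σ
      rw [nE, gain, div_le_iff₀ (by positivity)]
      push_cast at c3
      have : D.b j σ * (1 / 2) ≤ D.b j σ * |p.KK D τ M (m + 1) (D.n j)| := by gcongr
      nlinarith
    · have s := L.sep o.hq hi hj ne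
      have hp := hh_pos (D := D) (τ := τ) o m
      rw [ε₁, one_div_one_div, abs_mul, abs_of_pos hp]
      have := o.γ_pos
      calc p.γ * p.R ≤ p.γ * (D.n j * p.hh D τ m) := by gcongr
        _ = (p.γ * D.n j) * p.hh D τ m := by ring
        _ ≤ _ := by gcongr; exact s
  obtain ⟨τ₁, τ₂, k1, k2, k3, k4⟩ := step_core D.J D.n E (h := p.hh D τ m)
    (d := 6 * p.hh D τ (m + 1)) (fun j hj => L.pos hj) (hh_pos o m) o.hR
    (by have := hh_pos (D := D) (τ := τ) o (m + 1); positivity)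
    (by rw [le_div_iff₀ hR]; linarith [hh_succ (D := D) (τ := τ) o m]) o.inv_R_le hg
  have e1 : ∑ j ∈ D.J, E j * (Real.sinc (D.n j * p.hh D τ m) : ℝ) = p.AA D τ M m σ x := by
    refine sum_congr rfl fun j _ => ?_
    rw [KK_succ hm, hE]; push_cast; ring
  have e2 : ∀ s, ∑ j ∈ D.J, E j * ee (D.n j * s) = p.AA D τ M (m + 1) σ (x + s) := by
    intro s
    refine sum_congr rfl fun j _ => ?_
    rw [mul_add, ee_add, hE]; ring
  have e3 : ∑ j ∈ D.J, ‖E j‖ * min (D.n j * p.hh D τ m) p.ε₁ ≤ p.loss D τ m := by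
    refine sum_le_sum fun j hj => ?_
    rw [nE, mul_assoc, mul_comm |_|]
    have := D.b_nonneg j σ
    have : 0 ≤ min (D.n j * p.hh D τ m) p.ε₁ :=
      le_min (mul_pos (L.pos hj) (hh_pos o m)).le (le_trans (by positivity) o.inv_R_le)
    gcongr
    exact abs_KK_le o hm (L.pos hj) (hM j hj)
  have e4 : p.gg D τ (m + 1) = p.gg D τ m + (p.gain D τ m - 60 * p.loss D τ m - p.chg D τ m) :=
    sum_range_succ _ _
  simp only [e1, e2] at k4
  refine ⟨x + τ₁, x + τ₂, by simpa using k1, by simpa using k2, by simpa using k3, ?_, ?_⟩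
  · linarith [k4 τ₁ (by simp)]
  · linarith [k4 τ₂ (by simp)]

theorem ref_point (L : D.Lac p.q p.V) {M m : ℕ} (hm : m ≤ M) {t x θ : ℝ} (s : p.Safe D t m)
    (hθ : |θ - x| ≤ 2 * p.hh D τ m) :
    ‖p.AA D τ M m t x‖ - p.c₀ / 4 * D.S t ≤ ‖D.F t θ‖ := by
  have hV := o.V_pos
  have hz := o.z_pos m
  have h1 : ‖D.F t θ - p.AA D τ M m t x‖ ≤ 3 / p.V * D.S t + 2 * (D.S t - D.hd (p.z m / p.V) t) := by
    rw [D.S_sub_hd, Data.S, mul_sum, mul_sum, ← sum_add_distrib, Data.F, AA, ← sum_sub_distrib]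
    refine (norm_sum_le _ _).trans (sum_le_sum fun j hj => ?_)
    have e : D.c j * (Real.exp (D.n j * t) : ℝ) * ee (D.n j * θ) -
        D.c j * (Real.exp (D.n j * t) : ℝ) * (p.KK D τ M m (D.n j) : ℝ) * ee (D.n j * x) =
        D.c j * (Real.exp (D.n j * t) : ℝ) * ee (D.n j * x) *
          ((ee (D.n j * (θ - x)) - 1) + ((1 - p.KK D τ M m (D.n j) : ℝ) : ℂ)) := by
      rw [show D.n j * θ = D.n j * x + D.n j * (θ - x) by ring, ee_add]; push_cast; ring
    rw [e, norm_mul, norm_mul, norm_ee, mul_one, D.norm_coef]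
    have b0 := D.b_nonneg j t
    have hn := L.pos hj
    have hp := hh_pos (D := D) (τ := τ) o m
    split_ifs with c
    · have : ‖(ee (D.n j * (θ - x)) - 1) + ((1 - p.KK D τ M m (D.n j) : ℝ) : ℂ)‖ ≤ 2 := by
        rw [show (ee (D.n j * (θ - x)) - 1) + ((1 - p.KK D τ M m (D.n j) : ℝ) : ℂ) =
          ee (D.n j * (θ - x)) - (p.KK D τ M m (D.n j) : ℝ) by push_cast; ring]
        refine (norm_sub_le _ _).trans ?_
        rw [norm_ee, Complex.norm_real, Real.norm_eq_abs]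
        linarith [abs_KK_le_one (p := p) (D := D) (τ := τ) M m (D.n j)]
      have : 0 ≤ 3 / p.V * D.b j t := by positivity
      nlinarith
    · have a1 : D.n j * p.hh D τ m ≤ 1 / p.V := by
        calc _ ≤ p.z m / p.V * (1 / p.z m) := by gcongr; exacts [(not_le.1 c).le, hh_le o m]
          _ = _ := by field_simp
      have a2 : 1 / p.V ≤ 1 := by rw [div_le_one hV]; exact o.one_le_V
      have a3 : 0 < D.n j * p.hh D τ m := by positivity
      have : ‖(ee (D.n j * (θ - x)) - 1) + ((1 - p.KK D τ M m (D.n j) : ℝ) : ℂ)‖ ≤ 3 / p.V := by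
        refine (norm_add_le _ _).trans ?_
        have k1 := norm_ee_sub_one (D.n j * (θ - x))
        rw [abs_mul, abs_of_pos hn] at k1
        have k2 : D.n j * |θ - x| ≤ D.n j * (2 * p.hh D τ m) := by gcongr
        have k3 := abs_one_sub_KK (D := D) (τ := τ) o hm hn
        rw [Complex.norm_real, Real.norm_eq_abs, show 3 / p.V = 3 * (1 / p.V) by ring]
        nlinarith
      nlinarith
  have hS := D.S_nonneg t
  have h2 : p.η₁ * D.S t ≤ p.η * D.S t := by gcongr; exact o.η₁_le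
  have h3 : 3 / p.V * D.S t ≤ p.c₀ / 8 * D.S t := by
    refine mul_le_mul_of_nonneg_right (le_trans ?_ o.hV) hS
    gcongr; norm_num
  have h4 : 8 * p.η * D.S t ≤ p.c₀ / 8 * D.S t := by
    gcongr
    have := o.c₀_pos
    unfold η ζ; linarith
  have := norm_sub_norm_le (p.AA D τ M m t x) (D.F t θ)
  rw [norm_sub_rev] at this
  linarith [s.2.1, s.2.2]

end Par

end Pool.Agent.P.MP_bdd694_an
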